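import Pool.Agent.Run7.h782.GD.Defs

/-!
Finitely supported coefficient families and the bilinear term.
-/

set_option autoImplicit false

open Set Filter Topology
open scoped ContDiff

namespace Pool.Agent.Run7.h407.GD

open H459R3.NS
open Pool.Agent.Run7.h782.GD hiding sq
open Pool.Agent.Run7.h782.GD renaming sq → ksq

/-! ### Linear algebra -/

theorem sq_nonneg' (k : K3) : 0 ≤ ksq k := by
  unfold ksq
  exact Finset.sum_nonneg fun j _ => sq_nonneg _

theorem sq_pos {k : K3} (hk : k ≠ 0) : 0 < ksq k := by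
  obtain ⟨j, hj⟩ : ∃ j, k j ≠ 0 := by
    by_contra hcon
    push Not at hcon
    exact hk (funext hcon)
  unfold ksq
  apply Finset.sum_pos' (fun j _ => sq_nonneg _)
  refine ⟨j, Finset.mem_univ _, ?_⟩
  have : (k j : ℝ) ≠ 0 := by exact_mod_cast hj
  positivity

theorem one_le_sq {k : K3} (hk : k ≠ 0) : 1 ≤ ksq k := by
  have h := sq_pos hk
  have e : ksq k = ((∑ j, k j ^ 2 : ℤ) : ℝ) := by
    unfold ksq
    push_cast
    rfl
  rw [e] at h ⊢
  have h2 : 0 < ∑ j, k j ^ 2 := by exact_mod_cast h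
  exact_mod_cast h2

theorem len_nonneg (k : K3) : 0 ≤ len k := Real.sqrt_nonneg _

theorem len_sq (k : K3) : len k ^ 2 = ksq k := Real.sq_sqrt (sq_nonneg' k)

theorem len_pos {k : K3} (hk : k ≠ 0) : 0 < len k := Real.sqrt_pos.2 (sq_pos hk)

theorem one_le_len {k : K3} (hk : k ≠ 0) : 1 ≤ len k := by
  unfold len
  rw [Real.one_le_sqrt]
  exact one_le_sq hk

theorem sq_neg' (k : K3) : ksq (-k) = ksq k := by
  unfold ksq
  simp

theorem len_neg (k : K3) : len (-k) = len k := by
  unfold len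
  rw [sq_neg']

theorem lam_neg (ν : ℝ) (k : K3) : lam ν (-k) = lam ν k := by
  unfold lam
  rw [sq_neg']

theorem kd_add (k : K3) (v w : C3) : kd k (v + w) = kd k v + kd k w := by
  unfold kd
  rw [← Finset.sum_add_distrib]
  congr 1
  funext j
  simp only [Pi.add_apply]
  ring

theorem kd_smul (k : K3) (c : ℂ) (v : C3) : kd k (c • v) = c * kd k v := by
  unfold kd
  rw [Finset.mul_sum]
  congr 1
  funext j
  simp only [Pi.smul_apply, smul_eq_mul]
  ring

theorem kd_zero (k : K3) : kd k (0 : C3) = 0 := by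
  unfold kd
  simp

theorem kd_zero_left (v : C3) : kd 0 v = 0 := by
  unfold kd
  simp

theorem kd_neg_left (k : K3) (v : C3) : kd (-k) v = -kd k v := by
  unfold kd
  rw [← Finset.sum_neg_distrib]
  congr 1
  funext j
  simp

theorem kd_add_left (k l : K3) (v : C3) : kd (k + l) v = kd k v + kd l v := by
  unfold kd
  rw [← Finset.sum_add_distrib]
  congr 1
  funext j
  simp only [Pi.add_apply, Int.cast_add]
  ring

theorem norm_kd_le (k : K3) (v : C3) : ‖kd k v‖ ≤ 2 * len k * ‖v‖ := by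
  unfold kd
  have h1 : ‖∑ j, (k j : ℂ) * v j‖ ≤ ∑ j : Fin 3, |(k j : ℝ)| * ‖v‖ := by
    refine (norm_sum_le _ _).trans ?_
    apply Finset.sum_le_sum
    intro j _
    rw [norm_mul]
    have e : ‖(k j : ℂ)‖ = |(k j : ℝ)| := by
      have : (k j : ℂ) = ((k j : ℝ) : ℂ) := by push_cast; rfl
      rw [this, Complex.norm_real, Real.norm_eq_abs]
    rw [e]
    exact mul_le_mul_of_nonneg_left (norm_le_pi_norm v j) (abs_nonneg _)
  refine h1.trans ?_
  rw [← Finset.sum_mul]
  apply mul_le_mul_of_nonneg_right _ (norm_nonneg _)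
  have h2 : (∑ j : Fin 3, |(k j : ℝ)|) ^ 2 ≤ 3 * ksq k := by
    unfold ksq
    rw [Fin.sum_univ_three, Fin.sum_univ_three]
    have a0 := sq_abs ((k 0 : ℝ))
    have a1 := sq_abs ((k 1 : ℝ))
    have a2 := sq_abs ((k 2 : ℝ))
    nlinarith [sq_nonneg (|(k 0 : ℝ)| - |(k 1 : ℝ)|), sq_nonneg (|(k 0 : ℝ)| - |(k 2 : ℝ)|),
      sq_nonneg (|(k 1 : ℝ)| - |(k 2 : ℝ)|)]
  have h3 : (∑ j : Fin 3, |(k j : ℝ)|) ^ 2 ≤ (2 * len k) ^ 2 := by
    rw [mul_pow, len_sq]
    have := sq_nonneg' k
    linarith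
  have h4 := len_nonneg k
  exact le_of_sq_le_sq h3 (by positivity)
where
  le_of_sq_le_sq {a b : ℝ} (h : a ^ 2 ≤ b ^ 2) (hb : 0 ≤ b) : a ≤ b := by
    nlinarith [sq_nonneg (a - b), sq_nonneg (a + b)]

theorem prj_add (k : K3) (v w : C3) : prj k (v + w) = prj k v + prj k w := by
  funext i
  simp only [prj, kd_add, Pi.add_apply]
  ring

theorem prj_smul (k : K3) (c : ℂ) (v : C3) : prj k (c • v) = c • prj k v := by
  funext i
  simp only [prj, kd_smul, Pi.smul_apply, smul_eq_mul]
  ring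

theorem prj_zero (k : K3) : prj k (0 : C3) = 0 := by
  funext i
  simp only [prj, kd_zero, Pi.zero_apply]
  ring

theorem prj_of_kd {k : K3} {v : C3} (h : kd k v = 0) : prj k v = v := by
  funext i
  simp only [prj, h]
  ring

theorem kd_prj (k : K3) (v : C3) : kd k (prj k v) = 0 := by
  by_cases hk : k = 0
  · rw [hk, kd_zero_left]
  · have h := sq_pos hk
    have h2 : (ksq k : ℂ) ≠ 0 := by exact_mod_cast h.ne'
    have e : (ksq k : ℂ) = ∑ j, (k j : ℂ) * (k j : ℂ) := by
      unfold ksq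
      push_cast
      congr 1
      funext j
      ring
    have e2 : kd k (prj k v) = kd k v - (∑ j, (k j : ℂ) * (k j : ℂ)) * (kd k v / (ksq k : ℂ)) := by
      unfold prj
      conv_lhs => unfold kd
      rw [Finset.sum_mul]
      have : kd k v = ∑ j, (k j : ℂ) * v j := rfl
      rw [this, ← Finset.sum_sub_distrib]
      congr 1
      funext j
      ring
    rw [e2, ← e]
    field_simp
    ring

theorem norm_prj_le (k : K3) (v : C3) : ‖prj k v‖ ≤ 3 * ‖v‖ := by
  rw [pi_norm_le_iff_of_nonneg (by positivity)]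
  intro i
  unfold prj
  have h1 := norm_kd_le k v
  by_cases hk : k = 0
  · rw [hk]
    simp only [kd_zero_left, zero_div, mul_zero, sub_zero]
    have := norm_le_pi_norm v i
    have := norm_nonneg v
    linarith
  · have hl := len_pos hk
    have h2 : ‖(k i : ℂ)‖ ≤ len k := by
      have e : ‖(k i : ℂ)‖ = |(k i : ℝ)| := by
        have : (k i : ℂ) = ((k i : ℝ) : ℂ) := by push_cast; rfl
        rw [this, Complex.norm_real, Real.norm_eq_abs]
      rw [e]
      apply Real.abs_le_sqrt
      unfold ksq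
      exact Finset.single_le_sum (f := fun j => (k j : ℝ) ^ 2) (fun j _ => sq_nonneg _)
        (Finset.mem_univ i)
    have h3 : ‖(k i : ℂ) * (kd k v / (ksq k : ℂ))‖ ≤ 2 * ‖v‖ := by
      rw [norm_mul, norm_div, Complex.norm_real, Real.norm_eq_abs, abs_of_pos (sq_pos hk),
        ← len_sq, mul_div_assoc', div_le_iff₀ (by positivity)]
      calc ‖(k i : ℂ)‖ * ‖kd k v‖ ≤ len k * (2 * len k * ‖v‖) :=
            mul_le_mul h2 h1 (norm_nonneg _) hl.le
        _ = 2 * ‖v‖ * len k ^ 2 := by ring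
    calc ‖v i - (k i : ℂ) * (kd k v / (ksq k : ℂ))‖
        ≤ ‖v i‖ + ‖(k i : ℂ) * (kd k v / (ksq k : ℂ))‖ := norm_sub_le _ _
      _ ≤ ‖v‖ + 2 * ‖v‖ := add_le_add (norm_le_pi_norm v i) h3
      _ = 3 * ‖v‖ := by ring

/-! ### Finitely supported families -/

/-- Finitely supported families. -/
def FS (a : Cf) : Prop := (Function.support a).Finite

/-- A single mode. -/
noncomputable def sm (κ : K3) (α : C3) : Cf := fun k => if k = κ then α else 0

theorem sm_self (κ : K3) (α : C3) : sm κ α κ = α := by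
  unfold sm
  rw [if_pos rfl]

theorem sm_ne {κ k : K3} (h : k ≠ κ) (α : C3) : sm κ α k = 0 := by
  unfold sm
  rw [if_neg h]

theorem FS.sm (κ : K3) (α : C3) : FS (sm κ α) := by
  apply (Set.finite_singleton κ).subset
  intro k hk
  by_contra h
  exact hk (sm_ne h α)

theorem FS.zero : FS (0 : Cf) := by
  unfold FS
  rw [Function.support_zero]
  exact Set.finite_empty

theorem FS.add {a b : Cf} (ha : FS a) (hb : FS b) : FS (a + b) :=
  (ha.union hb).subset (Function.support_add a b)

theorem FS.sum {ι : Type*} {s : Finset ι} {a : ι → Cf} (h : ∀ i ∈ s, FS (a i)) :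
    FS (∑ i ∈ s, a i) := by
  classical
  induction s using Finset.induction_on with
  | empty =>
    rw [Finset.sum_empty]
    exact FS.zero
  | insert i s hi ih =>
    rw [Finset.sum_insert hi]
    exact (h i (Finset.mem_insert_self i s)).add
      (ih fun j hj => h j (Finset.mem_insert_of_mem hj))

/-- The inner sum in the bilinear term. -/
noncomputable def cv (a b : Cf) (k : K3) : C3 := ∑' p : K3, kd k (a p) • b (k - p)

theorem nl_eq (a b : Cf) (k : K3) : nl a b k = (2 * Real.pi * Complex.I : ℂ) • prj k (cv a b k) :=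
  rfl

theorem cv_fin {a : Cf} (ha : FS a) (b : Cf) (k : K3) {s : Finset K3} (hs : ha.toFinset ⊆ s) :
    cv a b k = ∑ p ∈ s, kd k (a p) • b (k - p) := by
  unfold cv
  apply tsum_eq_sum
  intro p hp
  have : a p = 0 := by
    by_contra h
    exact hp (hs (ha.mem_toFinset.2 h))
  rw [this, kd_zero, zero_smul]

theorem cv_add_left {a a' : Cf} (ha : FS a) (ha' : FS a') (b : Cf) (k : K3) :
    cv (a + a') b k = cv a b k + cv a' b k := by
  classical
  set s := ha.toFinset ∪ ha'.toFinset ∪ (ha.add ha').toFinset with hs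
  rw [cv_fin (ha.add ha') b k (s := s) Finset.subset_union_right,
    cv_fin ha b k (s := s) (Finset.subset_union_left.trans Finset.subset_union_left),
    cv_fin ha' b k (s := s) (Finset.subset_union_right.trans Finset.subset_union_left),
    ← Finset.sum_add_distrib]
  apply Finset.sum_congr rfl
  intro p _
  rw [Pi.add_apply, kd_add, add_smul]

theorem cv_add_right {a : Cf} (ha : FS a) (b b' : Cf) (k : K3) :
    cv a (b + b') k = cv a b k + cv a b' k := by
  rw [cv_fin ha _ k subset_rfl, cv_fin ha _ k subset_rfl, cv_fin ha _ k subset_rfl,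
    ← Finset.sum_add_distrib]
  apply Finset.sum_congr rfl
  intro p _
  rw [Pi.add_apply, smul_add]

theorem nl_add_left {a a' : Cf} (ha : FS a) (ha' : FS a') (b : Cf) :
    nl (a + a') b = nl a b + nl a' b := by
  funext k
  rw [Pi.add_apply, nl_eq, nl_eq, nl_eq, cv_add_left ha ha', prj_add, smul_add]

theorem nl_add_right {a : Cf} (ha : FS a) (b b' : Cf) :
    nl a (b + b') = nl a b + nl a b' := by
  funext k
  rw [Pi.add_apply, nl_eq, nl_eq, nl_eq, cv_add_right ha, prj_add, smul_add]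

theorem nl_zero_left (b : Cf) : nl 0 b = 0 := by
  funext k
  rw [nl_eq]
  have : cv 0 b k = 0 := by
    unfold cv
    simp [kd_zero]
  rw [this, prj_zero, smul_zero]
  rfl

theorem nl_zero_right (a : Cf) : nl a 0 = 0 := by
  funext k
  rw [nl_eq]
  have : cv a 0 k = 0 := by
    unfold cv
    simp
  rw [this, prj_zero, smul_zero]
  rfl

theorem nl_sum_left {ι : Type*} {s : Finset ι} {a : ι → Cf} (h : ∀ i ∈ s, FS (a i)) (b : Cf) :
    nl (∑ i ∈ s, a i) b = ∑ i ∈ s, nl (a i) b := by
  classical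
  induction s using Finset.induction_on with
  | empty =>
    rw [Finset.sum_empty, Finset.sum_empty, nl_zero_left]
  | insert i s hi ih =>
    rw [Finset.sum_insert hi, Finset.sum_insert hi,
      nl_add_left (h i (Finset.mem_insert_self i s))
        (FS.sum fun j hj => h j (Finset.mem_insert_of_mem hj)),
      ih fun j hj => h j (Finset.mem_insert_of_mem hj)]

theorem nl_sum_right {ι : Type*} {s : Finset ι} {a : Cf} (ha : FS a) (b : ι → Cf) :
    nl a (∑ i ∈ s, b i) = ∑ i ∈ s, nl a (b i) := by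
  classical
  induction s using Finset.induction_on with
  | empty =>
    rw [Finset.sum_empty, Finset.sum_empty, nl_zero_right]
  | insert i s hi ih =>
    rw [Finset.sum_insert hi, Finset.sum_insert hi, nl_add_right ha, ih]

theorem nl_sm (κ κ' : K3) (α α' : C3) : nl (sm κ α) (sm κ' α')
    = sm (κ + κ') ((2 * Real.pi * Complex.I : ℂ) • prj (κ + κ') (kd (κ + κ') α • α')) := by
  funext k
  rw [nl_eq]
  have h : cv (sm κ α) (sm κ' α') k = kd k α • sm κ' α' (k - κ) := by
    unfold cv
    rw [tsum_eq_single κ]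
    · rw [sm_self]
    · intro p hp
      rw [sm_ne hp, kd_zero, zero_smul]
  rw [h]
  by_cases hk : k = κ + κ'
  · have e : k - κ = κ' := by rw [hk]; abel
    rw [e, sm_self, hk, sm_self]
  · have e : k - κ ≠ κ' := by
      intro h
      apply hk
      rw [← h]
      abel
    rw [sm_ne e, sm_ne hk, smul_zero, prj_zero, smul_zero]

/-- The interaction vanishes if the first wave vector is orthogonal to the output frequency. -/
theorem nl_sm_zero {κ κ' : K3} {α : C3} (α' : C3) (h : kd (κ + κ') α = 0) :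
    nl (sm κ α) (sm κ' α') = 0 := by
  rw [nl_sm, h, zero_smul, prj_zero, smul_zero]
  funext k
  unfold sm
  simp

/-! ### Norms -/

/-- The sum of the norms of the coefficients. -/
noncomputable def Y (a : Cf) : ℝ := ∑' k, ‖a k‖

theorem FS.summable {a : Cf} (ha : FS a) : Summable fun k => ‖a k‖ := by
  apply summable_of_hasFiniteSupport
  apply ha.subset
  intro k hk hk0
  apply hk
  show ‖a k‖ = 0
  rw [hk0, norm_zero]

theorem Y_nonneg (a : Cf) : 0 ≤ Y a := tsum_nonneg fun _ => norm_nonneg _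

theorem Y_sm (κ : K3) (α : C3) : Y (sm κ α) = ‖α‖ := by
  unfold Y
  rw [tsum_eq_single κ]
  · rw [sm_self]
  · intro k hk
    rw [sm_ne hk, norm_zero]

theorem Y_add_le {a b : Cf} (ha : FS a) (hb : FS b) : Y (a + b) ≤ Y a + Y b := by
  unfold Y
  rw [← ha.summable.tsum_add hb.summable]
  exact (ha.add hb).summable.tsum_le_tsum (fun k => norm_add_le _ _)
    (ha.summable.add hb.summable)

theorem Y_sum_le {ι : Type*} {s : Finset ι} {a : ι → Cf} (h : ∀ i ∈ s, FS (a i)) :
    Y (∑ i ∈ s, a i) ≤ ∑ i ∈ s, Y (a i) := by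
  classical
  induction s using Finset.induction_on with
  | empty =>
    rw [Finset.sum_empty, Finset.sum_empty]
    unfold Y
    simp
  | insert i s hi ih =>
    rw [Finset.sum_insert hi, Finset.sum_insert hi]
    refine (Y_add_le (h i (Finset.mem_insert_self i s))
        (FS.sum fun j hj => h j (Finset.mem_insert_of_mem hj))).trans ?_
    have := ih fun j hj => h j (Finset.mem_insert_of_mem hj)
    linarith

theorem sum_le_Y {a : Cf} (ha : FS a) (B : Finset K3) : ∑ k ∈ B, ‖a k‖ ≤ Y a :=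
  ha.summable.sum_le_tsum B fun _ _ => norm_nonneg _

/-- The norm with one negative derivative, on a finite set of frequencies. -/
noncomputable def X (B : Finset K3) (a : Cf) : ℝ := ∑ k ∈ B, ‖a k‖ / len k

theorem X_nonneg (B : Finset K3) (a : Cf) : 0 ≤ X B a :=
  Finset.sum_nonneg fun k _ => div_nonneg (norm_nonneg _) (len_nonneg k)

theorem X_add_le (B : Finset K3) (a b : Cf) : X B (a + b) ≤ X B a + X B b := by
  unfold X
  rw [← Finset.sum_add_distrib]
  apply Finset.sum_le_sum
  intro k _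
  rw [← add_div]
  exact div_le_div_of_nonneg_right (norm_add_le _ _) (len_nonneg k)

theorem X_zero (B : Finset K3) : X B 0 = 0 := by
  unfold X
  simp

theorem X_sum_le (B : Finset K3) {ι : Type*} (s : Finset ι) (a : ι → Cf) :
    X B (∑ i ∈ s, a i) ≤ ∑ i ∈ s, X B (a i) := by
  classical
  induction s using Finset.induction_on with
  | empty =>
    rw [Finset.sum_empty, Finset.sum_empty, X_zero]
  | insert i s hi ih =>
    rw [Finset.sum_insert hi, Finset.sum_insert hi]
    have := X_add_le B (a i) (∑ j ∈ s, a j)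
    linarith

theorem X_sm_le (B : Finset K3) (κ : K3) (α : C3) : X B (sm κ α) ≤ ‖α‖ / len κ := by
  unfold X
  by_cases h : κ ∈ B
  · rw [Finset.sum_eq_single_of_mem κ h]
    · rw [sm_self]
    · intro k _ hk
      rw [sm_ne hk, norm_zero, zero_div]
  · rw [Finset.sum_eq_zero]
    · exact div_nonneg (norm_nonneg _) (len_nonneg _)
    · intro k hk
      have : k ≠ κ := fun e => h (e ▸ hk)
      rw [sm_ne this, norm_zero, zero_div]

theorem norm_nl_le {a : Cf} (ha : FS a) (b : Cf) (k : K3) :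
    ‖nl a b k‖ ≤ 40 * len k * ∑ p ∈ ha.toFinset, ‖a p‖ * ‖b (k - p)‖ := by
  rw [nl_eq, norm_smul, cv_fin ha b k subset_rfl]
  have h1 : ‖(2 * Real.pi * Complex.I : ℂ)‖ = 2 * Real.pi := by
    rw [norm_mul, norm_mul, Complex.norm_I, mul_one, Complex.norm_real, Real.norm_eq_abs,
      abs_of_pos Real.pi_pos]
    norm_num
  have h2 := norm_prj_le k (∑ p ∈ ha.toFinset, kd k (a p) • b (k - p))
  have h3 : ‖∑ p ∈ ha.toFinset, kd k (a p) • b (k - p)‖
      ≤ 2 * len k * ∑ p ∈ ha.toFinset, ‖a p‖ * ‖b (k - p)‖ := by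
    refine (norm_sum_le _ _).trans ?_
    rw [Finset.mul_sum]
    apply Finset.sum_le_sum
    intro p _
    rw [norm_smul]
    calc ‖kd k (a p)‖ * ‖b (k - p)‖ ≤ (2 * len k * ‖a p‖) * ‖b (k - p)‖ :=
          mul_le_mul_of_nonneg_right (norm_kd_le _ _) (norm_nonneg _)
      _ = _ := by ring
  have h4 : 0 ≤ ∑ p ∈ ha.toFinset, ‖a p‖ * ‖b (k - p)‖ :=
    Finset.sum_nonneg fun p _ => mul_nonneg (norm_nonneg _) (norm_nonneg _)
  have h5 := len_nonneg k
  have hpi : Real.pi < 3.15 := Real.pi_lt_d2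
  rw [h1]
  calc 2 * Real.pi * ‖prj k (∑ p ∈ ha.toFinset, kd k (a p) • b (k - p))‖
      ≤ 2 * 3.15 * (3 * (2 * len k * ∑ p ∈ ha.toFinset, ‖a p‖ * ‖b (k - p)‖)) := by
        apply mul_le_mul _ (h2.trans (mul_le_mul_of_nonneg_left h3 (by norm_num)))
          (norm_nonneg _) (by norm_num)
        linarith
    _ ≤ _ := by nlinarith [mul_nonneg h5 h4]

theorem X_nl_le (B : Finset K3) {a b : Cf} (ha : FS a) (hb : FS b) :
    X B (nl a b) ≤ 40 * Y a * Y b := by
  unfold X
  have h1 : ∀ k ∈ B, ‖nl a b k‖ / len k ≤ 40 * ∑ p ∈ ha.toFinset, ‖a p‖ * ‖b (k - p)‖ := by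
    intro k _
    have h4 : 0 ≤ ∑ p ∈ ha.toFinset, ‖a p‖ * ‖b (k - p)‖ :=
      Finset.sum_nonneg fun p _ => mul_nonneg (norm_nonneg _) (norm_nonneg _)
    apply div_le_of_le_mul₀ (len_nonneg k) (by positivity)
    have := norm_nl_le ha b k
    linarith
  refine (Finset.sum_le_sum h1).trans ?_
  rw [← Finset.mul_sum, Finset.sum_comm, mul_assoc]
  apply mul_le_mul_of_nonneg_left _ (by norm_num)
  have h2 : ∀ p, ∑ k ∈ B, ‖a p‖ * ‖b (k - p)‖ ≤ ‖a p‖ * Y b := by
    intro p
    rw [← Finset.mul_sum]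
    apply mul_le_mul_of_nonneg_left _ (norm_nonneg _)
    have e : ∑ k ∈ B, ‖b (k - p)‖ = ∑ k ∈ B.image (fun k => k - p), ‖b k‖ := by
      rw [Finset.sum_image]
      intro x _ y _ hxy
      simpa using hxy
    rw [e]
    exact sum_le_Y hb _
  refine (Finset.sum_le_sum fun p _ => h2 p).trans ?_
  rw [← Finset.sum_mul]
  exact mul_le_mul_of_nonneg_right (sum_le_Y ha _) (Y_nonneg b)

end Pool.Agent.Run7.h407.GD
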