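import Pool.Agent.Run7.h407.GD.UnitB

/-!
Integer bases of the plane orthogonal to a frequency.
-/

set_option autoImplicit false

open Set Filter Topology
open scoped ContDiff

namespace Pool.Agent.Run7.h407.GD

open H459R3.NS
open Pool.Agent.Run7.h782.GD hiding sq
open Pool.Agent.Run7.h782.GD renaming sq → ksq

/-- The vector product of integer vectors. -/
def cr (k a : K3) : K3 :=
  ![k 1 * a 2 - k 2 * a 1, k 2 * a 0 - k 0 * a 2, k 0 * a 1 - k 1 * a 0]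

theorem dz_three (a b : K3) : dz a b = a 0 * b 0 + a 1 * b 1 + a 2 * b 2 := by
  unfold dz
  rw [Fin.sum_univ_three]

theorem ksq_three (a : K3) : ksq a = (a 0 : ℝ) ^ 2 + (a 1 : ℝ) ^ 2 + (a 2 : ℝ) ^ 2 := by
  unfold ksq
  rw [Fin.sum_univ_three]

theorem kd_three (a : K3) (z : C3) : kd a z = (a 0 : ℂ) * z 0 + (a 1 : ℂ) * z 1 + (a 2 : ℂ) * z 2 := by
  unfold kd
  rw [Fin.sum_univ_three]

theorem ksq_cr {k a : K3} (h : dz k a = 0) : ksq (cr k a) = ksq k * ksq a := by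
  have h2 : (k 0 : ℝ) * a 0 + k 1 * a 1 + k 2 * a 2 = 0 := by
    rw [dz_three] at h
    exact_mod_cast h
  rw [ksq_three, ksq_three, ksq_three]
  simp only [cr, Matrix.cons_val_zero, Matrix.cons_val_one, Matrix.cons_val]
  push_cast
  linear_combination (-((k 0 : ℝ) * a 0 + k 1 * a 1 + k 2 * a 2)) * h2

theorem decomp {k a : K3} (hk : k ≠ 0) (ha : a ≠ 0) (h : dz k a = 0) {z : C3} (hz : kd k z = 0) :
    z = (kd a z / (ksq a : ℂ)) • vc a + (kd (cr k a) z / (ksq (cr k a) : ℂ)) • vc (cr k a) := by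
  have hka : (k 0 : ℂ) * a 0 + k 1 * a 1 + k 2 * a 2 = 0 := by
    rw [dz_three] at h
    exact_mod_cast h
  have hkz : (k 0 : ℂ) * z 0 + (k 1 : ℂ) * z 1 + (k 2 : ℂ) * z 2 = 0 := by
    rw [← kd_three]
    exact hz
  have h1 : ((ksq k : ℝ) : ℂ) ≠ 0 := by exact_mod_cast (sq_pos hk).ne'
  have h2 : ((ksq a : ℝ) : ℂ) ≠ 0 := by exact_mod_cast (sq_pos ha).ne'
  have e1 : ((ksq k : ℝ) : ℂ) = (k 0 : ℂ) ^ 2 + (k 1 : ℂ) ^ 2 + (k 2 : ℂ) ^ 2 := by
    rw [ksq_three]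
    push_cast
    rfl
  have e2 : ((ksq a : ℝ) : ℂ) = (a 0 : ℂ) ^ 2 + (a 1 : ℂ) ^ 2 + (a 2 : ℂ) ^ 2 := by
    rw [ksq_three]
    push_cast
    rfl
  have key : ∀ i, z i * (ksq k * ksq a : ℂ) = (ksq k : ℂ) * kd a z * a i
      + kd (cr k a) z * (cr k a i : ℂ) := by
    intro i
    rw [e1, e2, kd_three, kd_three]
    fin_cases i
    · simp only [cr, Matrix.cons_val_zero, Matrix.cons_val_one, Matrix.cons_val]
      push_cast
      linear_combination (((k 0 : ℂ) * a 0 + k 1 * a 1 + k 2 * a 2) * z 0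
        - k 0 * (a 0 * z 0 + a 1 * z 1 + a 2 * z 2) - a 0 * (k 0 * z 0 + k 1 * z 1 + k 2 * z 2))
        * hka + ((a 0 : ℂ) ^ 2 + (a 1 : ℂ) ^ 2 + (a 2 : ℂ) ^ 2) * k 0 * hkz
    · simp only [cr, Matrix.cons_val_zero, Matrix.cons_val_one, Matrix.cons_val]
      push_cast
      linear_combination (((k 0 : ℂ) * a 0 + k 1 * a 1 + k 2 * a 2) * z 1
        - k 1 * (a 0 * z 0 + a 1 * z 1 + a 2 * z 2) - a 1 * (k 0 * z 0 + k 1 * z 1 + k 2 * z 2))
        * hka + ((a 0 : ℂ) ^ 2 + (a 1 : ℂ) ^ 2 + (a 2 : ℂ) ^ 2) * k 1 * hkz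
    · simp only [cr, Matrix.cons_val_zero, Matrix.cons_val_one, Matrix.cons_val]
      push_cast
      linear_combination (((k 0 : ℂ) * a 0 + k 1 * a 1 + k 2 * a 2) * z 2
        - k 2 * (a 0 * z 0 + a 1 * z 1 + a 2 * z 2) - a 2 * (k 0 * z 0 + k 1 * z 1 + k 2 * z 2))
        * hka + ((a 0 : ℂ) ^ 2 + (a 1 : ℂ) ^ 2 + (a 2 : ℂ) ^ 2) * k 2 * hkz
  funext i
  have e3 : ((ksq (cr k a) : ℝ) : ℂ) = (ksq k : ℂ) * (ksq a : ℂ) := by
    rw [ksq_cr h]
    push_cast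
    rfl
  simp only [Pi.add_apply, Pi.smul_apply, smul_eq_mul, vc]
  rw [e3]
  field_simp
  have := key i
  linear_combination this

theorem coef_le (a : K3) (z : C3) : ‖kd a z / (ksq a : ℂ)‖ * len a ≤ 2 * ‖z‖ := by
  by_cases ha : a = 0
  · rw [ha]
    have : len (0 : K3) = 0 := by
      unfold len ksq
      simp
    rw [this, mul_zero]
    positivity
  · have h1 := norm_kd_le a z
    have h2 := len_pos ha
    have h3 := sq_pos ha
    rw [norm_div, Complex.norm_real, Real.norm_eq_abs, abs_of_pos h3, ← len_sq,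
      div_mul_eq_mul_div, div_le_iff₀ (by positivity)]
    calc ‖kd a z‖ * len a ≤ (2 * len a * ‖z‖) * len a := mul_le_mul_of_nonneg_right h1 h2.le
      _ = _ := by ring

theorem exists_basis {k : K3} (hk : k ≠ 0) : ∃ a b : K3, a ≠ 0 ∧ b ≠ 0 ∧ dz k a = 0 ∧ dz k b = 0 ∧
    dz a b = 0 ∧ ∀ z : C3, kd k z = 0 → ∃ c d : ℂ, z = c • vc a + d • vc b ∧
      ‖c‖ * len a ≤ 2 * ‖z‖ ∧ ‖d‖ * len b ≤ 2 * ‖z‖ := by
  obtain ⟨a, ha, hka⟩ : ∃ a : K3, a ≠ 0 ∧ dz k a = 0 := by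
    by_cases h : k 0 = 0 ∧ k 1 = 0
    · refine ⟨![1, 0, 0], ?_, ?_⟩
      · intro h0
        have := congrFun h0 0
        simp at this
      · rw [dz_three]
        simp [h.1]
    · refine ⟨![-k 1, k 0, 0], ?_, ?_⟩
      · intro h0
        apply h
        have h1 := congrFun h0 0
        have h2 := congrFun h0 1
        simp at h1 h2
        exact ⟨h2, h1⟩
      · rw [dz_three]
        simp only [Matrix.cons_val_zero, Matrix.cons_val_one, Matrix.cons_val]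
        ring
  have hb : cr k a ≠ 0 := by
    intro h0
    have h1 := ksq_cr hka
    rw [h0] at h1
    have h2 := sq_pos hk
    have h3 := sq_pos ha
    have h4 : ksq (0 : K3) = 0 := by
      unfold ksq
      simp
    rw [h4] at h1
    have := mul_pos h2 h3
    linarith
  refine ⟨a, cr k a, ha, hb, hka, ?_, ?_, ?_⟩
  · rw [dz_three]
    simp only [cr, Matrix.cons_val_zero, Matrix.cons_val_one, Matrix.cons_val]
    ring
  · rw [dz_three]
    simp only [cr, Matrix.cons_val_zero, Matrix.cons_val_one, Matrix.cons_val]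
    ring
  · intro z hz
    exact ⟨_, _, decomp hk ha hka hz, coef_le a z, coef_le (cr k a) z⟩

end Pool.Agent.Run7.h407.GD
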