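import Pool.Agent.Run7.h407.GD.Fam

/-!
Integrated bounds of a family of units at separated scales.
-/

set_option autoImplicit false
set_option linter.unusedSectionVars false

open Set Filter Topology MeasureTheory

namespace Pool.Agent.Run7.h407.GD

open H459R3.NS
open Pool.Agent.Run7.h782.GD hiding sq
open Pool.Agent.Run7.h782.GD renaming sq → ksq

variable {ν : ℝ} {ι : Type} [Fintype ι] [DecidableEq ι] (u : ι → Un ν)

/-- The hypotheses on the family. -/
structure Hyp (u : ι → Un ν) (E G : ℝ) : Prop where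
  hν : 0 < ν
  hE : 1 ≤ E
  hom : ∀ i, E ≤ (u i).om
  hs : Sep E fun i => (u i).om
  hG : 0 ≤ G
  hS : ∀ i, (u i).Sz ≤ G * (u i).om
  hl : ∀ i, (u i).lo ≤ G

variable {u} {E G : ℝ}

theorem Hyp.MM_le (h : Hyp u E G) (i : ι) : MM u i ≤ 2 * G * (u i).om := by
  have h1 := h.hS i
  have h2 := h.hl i
  have h3 := (u i).om_one
  have h4 := h.hG
  unfold MM
  nlinarith

theorem Hyp.MM_mul_le (h : Hyp u E G) (i j : ι) :
    MM u i * MM u j ≤ 4 * G ^ 2 * ((u i).om * (u j).om) := by
  have h1 := h.MM_le i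
  have h2 := h.MM_le j
  have h3 := MM_nonneg u j
  have h4 := h.hG
  have h5 := (u i).om_pos
  calc MM u i * MM u j ≤ (2 * G * (u i).om) * (2 * G * (u j).om) :=
        mul_le_mul h1 h2 h3 (by positivity)
    _ = _ := by ring

theorem Hyp.kap (h : Hyp u E G) : 36 * ν ≤ 4 * Real.pi ^ 2 * ν := by
  have h1 := pi_sq_gt
  have h2 := h.hν
  nlinarith

theorem Hyp.int_gg (h : Hyp u E G) {T : ℝ} :
    ∫ t in (0 : ℝ)..T, gg u t ≤ ((Fintype.card ι : ℝ) * (160 * ν * G + 120 * G ^ 2)
      + (Fintype.card ι : ℝ) ^ 2 * (160 * G ^ 2)) / (36 * ν) / E := by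
  have hν := h.hν
  have hE : 0 < E := by linarith [h.hE]
  have hG := h.hG
  have hk := h.kap
  have hk0 : 0 < 4 * Real.pi ^ 2 * ν := by
    have := Real.pi_pos
    positivity
  have hR0 : ∀ i, 0 ≤ (u i).Rz := by
    intro i
    have h1 := (u i).lo_nonneg
    have h2 := (u i).om_pos
    have h3 := (u i).Sz_nonneg
    unfold Un.Rz
    positivity
  have hadd : ∫ t in (0 : ℝ)..T, gg u t = (∫ t in (0 : ℝ)..T, ∑ i, (u i).Rz
      * Real.exp (-((u i).la * t))) + ∫ t in (0 : ℝ)..T, ∑ p : ι × ι,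
      (if p.1 = p.2 then 0 else 40 * (MM u p.1 * MM u p.2))
        * Real.exp (-(((u p.1).la + (u p.2).la) * t)) := by
    unfold gg
    apply intervalIntegral.integral_add
    · apply Continuous.intervalIntegrable
      fun_prop
    · apply Continuous.intervalIntegrable
      fun_prop
  have b1 := int_sum_exp_le (T := T) Finset.univ (fun i => (u i).Rz) (fun i => (u i).la)
    (fun i _ => hR0 i) (fun i _ => (u i).la_pos)
  have b2 := int_sum_exp_le (T := T) (Finset.univ : Finset (ι × ι))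
    (fun p => if p.1 = p.2 then 0 else 40 * (MM u p.1 * MM u p.2))
    (fun p => (u p.1).la + (u p.2).la)
    (fun p _ => by
      show (0 : ℝ) ≤ if p.1 = p.2 then 0 else 40 * (MM u p.1 * MM u p.2)
      split_ifs
      · exact le_rfl
      · have := mul_nonneg (MM_nonneg u p.1) (MM_nonneg u p.2)
        linarith)
    (fun p _ => add_pos (u p.1).la_pos (u p.2).la_pos)
  have c1 : ∑ i, (u i).Rz / (u i).la
      ≤ (Fintype.card ι : ℝ) * ((160 * ν * G + 120 * G ^ 2) / (36 * ν * E)) := by
    have : ∀ i ∈ (Finset.univ : Finset ι), (u i).Rz / (u i).la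
        ≤ (160 * ν * G + 120 * G ^ 2) / (36 * ν * E) := by
      intro i _
      have h1 := (u i).lo_nonneg
      have h2 := (u i).om_pos
      have h3 := (u i).Sz_nonneg
      have h4 := h.hS i
      have h5 := h.hl i
      have h6 := h.hom i
      have h7 := (u i).om_one
      have hR : (u i).Rz ≤ (160 * ν * G + 120 * G ^ 2) * (u i).om := by
        unfold Un.Rz
        have a1 : 160 * ν * (u i).lo * (u i).om ≤ 160 * ν * G * (u i).om := by
          apply mul_le_mul_of_nonneg_right _ h2.le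
          exact mul_le_mul_of_nonneg_left h5 (by positivity)
        have a2 : 80 * (u i).Sz * (u i).lo ≤ 80 * (G * (u i).om) * G := by
          apply mul_le_mul _ h5 h1 (by positivity)
          linarith
        have a3 : 40 * (u i).lo ^ 2 ≤ 40 * G ^ 2 * (u i).om := by
          have : (u i).lo ^ 2 ≤ G ^ 2 := pow_le_pow_left₀ h1 h5 2
          nlinarith [sq_nonneg G]
        nlinarith
      have hL : 36 * ν * E * (u i).om ≤ (u i).la := by
        unfold Un.la
        have : 36 * ν * (E * (u i).om) ≤ 4 * Real.pi ^ 2 * ν * ((u i).om * (u i).om) := by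
          apply mul_le_mul hk _ (by positivity) (by positivity)
          exact mul_le_mul_of_nonneg_right h6 h2.le
        nlinarith
      calc (u i).Rz / (u i).la ≤ ((160 * ν * G + 120 * G ^ 2) * (u i).om) / (36 * ν * E * (u i).om) :=
            div_le_div₀ (by positivity) hR (by positivity) hL
        _ = _ := by
            field_simp
    refine (Finset.sum_le_sum this).trans (le_of_eq ?_)
    rw [Finset.sum_const, Finset.card_univ]
    simp
  have c2 : ∑ p ∈ (Finset.univ : Finset (ι × ι)),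
      (if p.1 = p.2 then 0 else 40 * (MM u p.1 * MM u p.2)) / ((u p.1).la + (u p.2).la)
      ≤ (Fintype.card ι : ℝ) ^ 2 * (160 * G ^ 2 / (36 * ν * E)) := by
    have d1 := cross_sum_le (E := E) (κ := 4 * Real.pi ^ 2 * ν) (G := 4 * G ^ 2)
      (ω := fun i => (u i).om) (M := fun i => MM u i) (r := fun i => (u i).la) hE hk0
      (fun i => (u i).om_pos) h.hs (fun i => rfl) (fun i j => h.MM_mul_le i j) (by positivity)
    have d2 : ∑ p ∈ (Finset.univ : Finset (ι × ι)),
        (if p.1 = p.2 then 0 else 40 * (MM u p.1 * MM u p.2)) / ((u p.1).la + (u p.2).la)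
        = 40 * ∑ i, ∑ j, (if i = j then 0 else MM u i * MM u j / ((u i).la + (u j).la)) := by
      rw [← Finset.univ_product_univ, Finset.sum_product, Finset.mul_sum]
      apply Finset.sum_congr rfl
      intro i _
      rw [Finset.mul_sum]
      apply Finset.sum_congr rfl
      intro j _
      simp only
      split_ifs
      · simp
      · ring
    rw [d2]
    have d3 : 4 * G ^ 2 / (4 * Real.pi ^ 2 * ν * E) ≤ 4 * G ^ 2 / (36 * ν * E) := by
      apply div_le_div_of_nonneg_left (by positivity) (by positivity)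
      exact mul_le_mul_of_nonneg_right hk hE.le
    calc 40 * ∑ i, ∑ j, (if i = j then 0 else MM u i * MM u j / ((u i).la + (u j).la))
        ≤ 40 * ((Fintype.card ι : ℝ) ^ 2 * (4 * G ^ 2 / (36 * ν * E))) := by
          apply mul_le_mul_of_nonneg_left _ (by norm_num)
          exact d1.trans (mul_le_mul_of_nonneg_left d3 (by positivity))
      _ = _ := by ring
  rw [hadd]
  refine (add_le_add (b1.trans c1) (b2.trans c2)).trans (le_of_eq ?_)
  field_simp

theorem Hyp.int_vv (h : Hyp u E G) (B : Finset K3) {T : ℝ} (hT : 0 ≤ T) :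
    ∫ t in (0 : ℝ)..T, (∑ k ∈ B, ‖vv u t k‖) ^ 2 ≤ 20 * ∑ i, (u i).ga
      + ((Fintype.card ι : ℝ) * G ^ 2 + (Fintype.card ι : ℝ) ^ 2 * (4 * G ^ 2)) / (36 * ν) / E := by
  have hν := h.hν
  have hE : 0 < E := by linarith [h.hE]
  have hG := h.hG
  have hk := h.kap
  have hk0 : 0 < 4 * Real.pi ^ 2 * ν := by
    have := Real.pi_pos
    positivity
  have a1 : ∫ t in (0 : ℝ)..T, (∑ k ∈ B, ‖vv u t k‖) ^ 2
      ≤ ∫ t in (0 : ℝ)..T, (∑ i, MM u i * Real.exp (-((u i).la * t))) ^ 2 := by
    apply intervalIntegral.integral_mono_on hT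
    · apply Continuous.intervalIntegrable
      exact (continuous_finsetSum _ fun k _ => (vv_cont u k).norm).pow 2
    · apply Continuous.intervalIntegrable
      fun_prop
    · intro t ht
      exact pow_le_pow_left₀ (Finset.sum_nonneg fun k _ => norm_nonneg _)
        (vv_sum_le u B ht.1) 2
  have a2 := int_sq_le (T := T) (fun i => MM u i) (fun i => (u i).la) (fun i => MM_nonneg u i)
    (fun i => (u i).la_pos)
  have a3 := quad_le (E := E) (κ := 4 * Real.pi ^ 2 * ν) (G := 4 * G ^ 2)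
    (ω := fun i => (u i).om) (M := fun i => MM u i) (r := fun i => (u i).la) hE hk0
    (fun i => (u i).om_pos) h.hs (fun i => rfl) (fun i j => h.MM_mul_le i j) (by positivity)
  have d3 : 4 * G ^ 2 / (4 * Real.pi ^ 2 * ν * E) ≤ 4 * G ^ 2 / (36 * ν * E) := by
    apply div_le_div_of_nonneg_left (by positivity) (by positivity)
    exact mul_le_mul_of_nonneg_right hk hE.le
  have a4 : ∑ i, MM u i ^ 2 / (2 * (u i).la)
      ≤ 20 * ∑ i, (u i).ga + (Fintype.card ι : ℝ) * (G ^ 2 / (36 * ν * E)) := by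
    have : ∀ i ∈ (Finset.univ : Finset ι), MM u i ^ 2 / (2 * (u i).la)
        ≤ 20 * (u i).ga + G ^ 2 / (36 * ν * E) := by
      intro i _
      have h1 := (u i).lo_nonneg
      have h2 := (u i).om_pos
      have h3 := (u i).Sz_sq
      have h5 := h.hl i
      have h6 := h.hom i
      have h7 := (u i).om_one
      have h8 := (u i).la_pos
      have h9 := (u i).ga_nonneg
      have e1 : MM u i ^ 2 ≤ 2 * ((u i).Sz ^ 2 + (u i).lo ^ 2) := by
        unfold MM
        nlinarith [sq_nonneg ((u i).Sz - (u i).lo)]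
      have e2 : MM u i ^ 2 / (2 * (u i).la) ≤ (u i).Sz ^ 2 / (u i).la + (u i).lo ^ 2 / (u i).la := by
        rw [← add_div, div_le_div_iff₀ (by positivity) h8]
        nlinarith
      have e3 : (u i).Sz ^ 2 / (u i).la ≤ 20 * (u i).ga := by
        rw [div_le_iff₀ h8]
        unfold Un.la
        have h10 := pi_sq_gt
        have : 0 ≤ ν * (u i).ga * (u i).om ^ 2 := by positivity
        calc (u i).Sz ^ 2 ≤ 720 * ν * (u i).ga * (u i).om ^ 2 := h3
          _ = 720 * (ν * (u i).ga * (u i).om ^ 2) := by ring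
          _ ≤ (80 * Real.pi ^ 2) * (ν * (u i).ga * (u i).om ^ 2) := by
              apply mul_le_mul_of_nonneg_right _ this
              linarith
          _ = _ := by ring
      have e4 : (u i).lo ^ 2 / (u i).la ≤ G ^ 2 / (36 * ν * E) := by
        apply div_le_div₀ (by positivity) (pow_le_pow_left₀ h1 h5 2) (by positivity)
        unfold Un.la
        have : 36 * ν * E ≤ 4 * Real.pi ^ 2 * ν * (u i).om ^ 2 := by
          apply mul_le_mul hk _ hE.le hk0.le
          nlinarith
        exact this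
      linarith
    refine (Finset.sum_le_sum this).trans (le_of_eq ?_)
    rw [Finset.sum_add_distrib, ← Finset.mul_sum, Finset.sum_const, Finset.card_univ]
    simp
  have a5 : (Fintype.card ι : ℝ) ^ 2 * (4 * G ^ 2 / (4 * Real.pi ^ 2 * ν * E))
      ≤ (Fintype.card ι : ℝ) ^ 2 * (4 * G ^ 2 / (36 * ν * E)) :=
    mul_le_mul_of_nonneg_left d3 (by positivity)
  have e : ((Fintype.card ι : ℝ) * G ^ 2 + (Fintype.card ι : ℝ) ^ 2 * (4 * G ^ 2)) / (36 * ν) / E
      = (Fintype.card ι : ℝ) * (G ^ 2 / (36 * ν * E))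
        + (Fintype.card ι : ℝ) ^ 2 * (4 * G ^ 2 / (36 * ν * E)) := by
    field_simp
  rw [e]
  linarith

theorem Hyp.heat_int (h : Hyp u E G) {Gs : ℝ} (hGs : 0 ≤ Gs)
    (hSS : ∀ i j, (u i).Sz * (u j).Sz ≤ Gs * ((u i).om * (u j).om)) (B : Finset K3) {T : ℝ}
    (hT : 0 ≤ T) :
    ∫ t in (0 : ℝ)..T, (∑ k ∈ B, Real.exp (-(4 * Real.pi ^ 2 * ksq k * t)) * ‖ww u k‖) ^ 2
      ≤ 10 * ν * ∑ i, (u i).ga + (Fintype.card ι : ℝ) ^ 2 * (Gs / (36 * E)) := by
  have hν := h.hν
  have hE : 0 < E := by linarith [h.hE]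
  have hpi := pi_sq_gt
  have hk0 : 0 < 4 * Real.pi ^ 2 := by positivity
  have a1 : ∫ t in (0 : ℝ)..T, (∑ k ∈ B, Real.exp (-(4 * Real.pi ^ 2 * ksq k * t)) * ‖ww u k‖) ^ 2
      ≤ ∫ t in (0 : ℝ)..T, (∑ i, (u i).Sz * Real.exp (-(4 * Real.pi ^ 2 * (u i).om ^ 2 * t))) ^ 2 := by
    apply intervalIntegral.integral_mono_on hT
    · apply Continuous.intervalIntegrable
      fun_prop
    · apply Continuous.intervalIntegrable
      fun_prop
    · intro t ht
      exact pow_le_pow_left₀ (Finset.sum_nonneg fun k _ => by positivity) (ww_heat u B ht.1) 2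
  have a2 := int_sq_le (T := T) (fun i => (u i).Sz) (fun i => 4 * Real.pi ^ 2 * (u i).om ^ 2)
    (fun i => (u i).Sz_nonneg) (fun i => by
      have := (u i).om_pos
      positivity)
  have a3 := quad_le (E := E) (κ := 4 * Real.pi ^ 2) (G := Gs)
    (ω := fun i => (u i).om) (M := fun i => (u i).Sz)
    (r := fun i => 4 * Real.pi ^ 2 * (u i).om ^ 2) hE hk0
    (fun i => (u i).om_pos) h.hs (fun i => rfl) hSS hGs
  have d3 : Gs / (4 * Real.pi ^ 2 * E) ≤ Gs / (36 * E) := by
    apply div_le_div_of_nonneg_left hGs (by positivity)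
    apply mul_le_mul_of_nonneg_right _ hE.le
    linarith
  have a4 : ∑ i, (u i).Sz ^ 2 / (2 * (4 * Real.pi ^ 2 * (u i).om ^ 2)) ≤ 10 * ν * ∑ i, (u i).ga := by
    rw [Finset.mul_sum]
    apply Finset.sum_le_sum
    intro i _
    have h2 := (u i).om_pos
    have h3 := (u i).Sz_sq
    have h9 := (u i).ga_nonneg
    rw [div_le_iff₀ (by positivity)]
    have : 0 ≤ ν * (u i).ga * (u i).om ^ 2 := by positivity
    calc (u i).Sz ^ 2 ≤ 720 * ν * (u i).ga * (u i).om ^ 2 := h3
      _ = 720 * (ν * (u i).ga * (u i).om ^ 2) := by ring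
      _ ≤ (80 * Real.pi ^ 2) * (ν * (u i).ga * (u i).om ^ 2) := by
          apply mul_le_mul_of_nonneg_right _ this
          linarith
      _ = _ := by ring
  have a5 : (Fintype.card ι : ℝ) ^ 2 * (Gs / (4 * Real.pi ^ 2 * E))
      ≤ (Fintype.card ι : ℝ) ^ 2 * (Gs / (36 * E)) :=
    mul_le_mul_of_nonneg_left d3 (by positivity)
  linarith

theorem Hyp.heat_sup (h : Hyp u E G) (hN : (Fintype.card ι : ℝ) ^ 2 ≤ E) {s : ℝ} (hs0 : 0 ≤ s)
    (hs : ∀ i, (u i).Sz ≤ s * (u i).om) (B : Finset K3) {t : ℝ} (ht : 0 < t) :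
    ∑ k ∈ B, Real.exp (-(4 * Real.pi ^ 2 * ksq k * t)) * ‖ww u k‖ ≤ 2 * s / Real.sqrt t := by
  have hE : 0 < E := by linarith [h.hE]
  have hr : 0 < Real.sqrt t := Real.sqrt_pos.2 ht
  have hr2 : Real.sqrt t ^ 2 = t := Real.sq_sqrt ht.le
  refine (ww_heat u B ht.le).trans ?_
  rw [le_div_iff₀ hr, Finset.sum_mul]
  have h1 : ∀ i ∈ (Finset.univ : Finset ι), (u i).Sz
      * Real.exp (-(4 * Real.pi ^ 2 * (u i).om ^ 2 * t)) * Real.sqrt t
      ≤ s * phi ((u i).om * Real.sqrt t) := by
    intro i _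
    have h2 := (u i).om_pos
    have h3 := hs i
    have h4 : Real.exp (-(4 * Real.pi ^ 2 * (u i).om ^ 2 * t))
        ≤ Real.exp (-((u i).om * Real.sqrt t) ^ 2) := by
      apply Real.exp_le_exp.2
      rw [mul_pow, hr2]
      have h5 := pi_sq_gt
      have : 0 ≤ (u i).om ^ 2 * t := by positivity
      nlinarith
    unfold phi
    calc (u i).Sz * Real.exp (-(4 * Real.pi ^ 2 * (u i).om ^ 2 * t)) * Real.sqrt t
        ≤ (s * (u i).om) * Real.exp (-((u i).om * Real.sqrt t) ^ 2) * Real.sqrt t := by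
          apply mul_le_mul_of_nonneg_right _ hr.le
          exact mul_le_mul h3 h4 (Real.exp_pos _).le (by positivity)
      _ = _ := by ring
  refine (Finset.sum_le_sum h1).trans ?_
  rw [← Finset.mul_sum]
  have h6 := sum_phi_le (ω := fun i => (u i).om) (fun i => (u i).om_pos.le) h.hs hE hN
    (s := Real.sqrt t) hr.le
  calc s * ∑ i, phi ((u i).om * Real.sqrt t) ≤ s * 2 := mul_le_mul_of_nonneg_left h6 hs0
    _ = 2 * s := by ring

theorem Hyp.decay (h : Hyp u E G) (B : Finset K3) {δ t : ℝ} (hδ : 0 < δ) (ht : δ ≤ t) :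
    ∑ k ∈ B, ‖vv u t k‖ ≤ (Fintype.card ι : ℝ) * (2 * G) / (36 * ν * δ) / E := by
  have hν := h.hν
  have hE : 0 < E := by linarith [h.hE]
  have hG := h.hG
  have hk := h.kap
  have hk0 : 0 < 4 * Real.pi ^ 2 * ν := by
    have := Real.pi_pos
    positivity
  refine (vv_sum_le u B (hδ.le.trans ht)).trans ?_
  have h1 : ∀ i ∈ (Finset.univ : Finset ι), MM u i * Real.exp (-((u i).la * t))
      ≤ 2 * G / (36 * ν * δ * E) := by
    intro i _
    have h2 := (u i).om_pos
    have h3 := h.MM_le i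
    have h4 := (u i).la_pos
    have h5 : Real.exp (-((u i).la * t)) ≤ 1 / ((u i).la * δ) := by
      have ht0 : 0 < t := hδ.trans_le ht
      refine (exp_le_inv (by positivity)).trans ?_
      apply one_div_le_one_div_of_le (by positivity)
      exact mul_le_mul_of_nonneg_left ht h4.le
    have h6 := h.hom i
    have h7 : 36 * ν * δ * E * (u i).om ≤ (u i).la * δ := by
      unfold Un.la
      have : 36 * ν * (E * (u i).om) ≤ 4 * Real.pi ^ 2 * ν * ((u i).om * (u i).om) := by
        apply mul_le_mul hk _ (by positivity) (by positivity)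
        exact mul_le_mul_of_nonneg_right h6 h2.le
      nlinarith
    calc MM u i * Real.exp (-((u i).la * t)) ≤ (2 * G * (u i).om) * (1 / ((u i).la * δ)) :=
          mul_le_mul h3 h5 (Real.exp_pos _).le (by positivity)
      _ = (2 * G * (u i).om) / ((u i).la * δ) := by ring
      _ ≤ (2 * G * (u i).om) / (36 * ν * δ * E * (u i).om) := by
          apply div_le_div_of_nonneg_left (by positivity) (by positivity) h7
      _ = _ := by
          field_simp
  refine (Finset.sum_le_sum h1).trans (le_of_eq ?_)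
  rw [Finset.sum_const, Finset.card_univ]
  simp only [nsmul_eq_mul]
  field_simp

end Pool.Agent.Run7.h407.GD
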