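import Mathlib

/-!
Sums of exponentials with separated rates.
-/

set_option autoImplicit false

open Set Filter Topology MeasureTheory

namespace Pool.Agent.Run7.h407.GD

theorem int_exp_le {r T : ℝ} (hr : 0 < r) :
    ∫ t in (0 : ℝ)..T, Real.exp (-(r * t)) ≤ 1 / r := by
  have h1 : ∀ x ∈ uIcc 0 T, HasDerivAt (fun t => -(Real.exp (-(r * t)) / r))
      (Real.exp (-(r * x))) x := by
    intro x _
    have h2 : HasDerivAt (fun t : ℝ => Real.exp (-(r * t))) (Real.exp (-(r * x)) * (-(r * 1))) x :=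
      (((hasDerivAt_id x).const_mul r).neg).exp
    have h3 := (h2.div_const r).neg
    have e : -(Real.exp (-(r * x)) * (-(r * 1)) / r) = Real.exp (-(r * x)) := by
      field_simp
    rw [e] at h3
    exact h3
  rw [intervalIntegral.integral_eq_sub_of_hasDerivAt h1 (by
    apply Continuous.intervalIntegrable
    fun_prop)]
  have h4 := Real.exp_pos (-(r * T))
  have h5 : Real.exp (-(r * 0)) = 1 := by simp
  rw [h5]
  have h6 : 0 < Real.exp (-(r * T)) / r := by positivity
  linarith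

theorem int_sum_exp_le {ι : Type*} (s : Finset ι) (C r : ι → ℝ) (hC : ∀ i ∈ s, 0 ≤ C i)
    (hr : ∀ i ∈ s, 0 < r i) {T : ℝ} :
    ∫ t in (0 : ℝ)..T, ∑ i ∈ s, C i * Real.exp (-(r i * t)) ≤ ∑ i ∈ s, C i / r i := by
  rw [intervalIntegral.integral_finsetSum]
  · apply Finset.sum_le_sum
    intro i hi
    rw [intervalIntegral.integral_const_mul]
    have h1 := int_exp_le (T := T) (hr i hi)
    calc C i * ∫ t in (0 : ℝ)..T, Real.exp (-(r i * t)) ≤ C i * (1 / r i) :=
          mul_le_mul_of_nonneg_left h1 (hC i hi)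
      _ = C i / r i := by ring
  · intro i _
    apply Continuous.intervalIntegrable
    fun_prop

theorem int_sq_le {ι : Type*} [Fintype ι] (M r : ι → ℝ) (hM : ∀ i, 0 ≤ M i) (hr : ∀ i, 0 < r i)
    {T : ℝ} :
    ∫ t in (0 : ℝ)..T, (∑ i, M i * Real.exp (-(r i * t))) ^ 2
      ≤ ∑ i, ∑ j, M i * M j / (r i + r j) := by
  have e : ∀ t, (∑ i, M i * Real.exp (-(r i * t))) ^ 2
      = ∑ p ∈ (Finset.univ : Finset (ι × ι)), M p.1 * M p.2 * Real.exp (-((r p.1 + r p.2) * t)) := by
    intro t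
    rw [_root_.sq, Finset.sum_mul_sum, ← Finset.univ_product_univ, Finset.sum_product]
    apply Finset.sum_congr rfl
    intro i _
    apply Finset.sum_congr rfl
    intro j _
    have : Real.exp (-((r i + r j) * t)) = Real.exp (-(r i * t)) * Real.exp (-(r j * t)) := by
      rw [← Real.exp_add]
      congr 1
      ring
    rw [this]
    ring
  simp_rw [e]
  refine (int_sum_exp_le Finset.univ (fun p : ι × ι => M p.1 * M p.2)
    (fun p => r p.1 + r p.2) (fun p _ => mul_nonneg (hM _) (hM _))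
    (fun p _ => add_pos (hr _) (hr _))).trans (le_of_eq ?_)
  rw [← Finset.univ_product_univ, Finset.sum_product]

/-- Separated positive numbers. -/
def Sep {ι : Type*} (E : ℝ) (ω : ι → ℝ) : Prop :=
  ∀ i j, i ≠ j → E * ω i ≤ ω j ∨ E * ω j ≤ ω i

theorem sep_ratio {ι : Type*} {E : ℝ} {ω : ι → ℝ} (hE : 0 < E) (hω : ∀ i, 0 < ω i)
    (hs : Sep E ω) {i j : ι} (hij : i ≠ j) : ω i * ω j ≤ (ω i ^ 2 + ω j ^ 2) / E := by
  rw [le_div_iff₀ hE]
  have h1 := hω i
  have h2 := hω j
  rcases hs i j hij with h | h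
  · have := mul_le_mul_of_nonneg_right h h2.le
    nlinarith
  · have := mul_le_mul_of_nonneg_right h h1.le
    nlinarith

theorem cross_le {ι : Type*} {E κ G : ℝ} {ω M r : ι → ℝ} (hE : 0 < E) (hκ : 0 < κ)
    (hω : ∀ i, 0 < ω i) (hs : Sep E ω) (hr : ∀ i, r i = κ * ω i ^ 2)
    {i j : ι} (hij : i ≠ j) (hMM : M i * M j ≤ G * (ω i * ω j)) (hG : 0 ≤ G) :
    M i * M j / (r i + r j) ≤ G / (κ * E) := by
  have h1 := hω i
  have h2 := hω j
  rw [hr, hr, div_le_div_iff₀ (by positivity) (by positivity)]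
  have h3 := sep_ratio hE hω hs hij
  rw [le_div_iff₀ hE] at h3
  calc M i * M j * (κ * E) ≤ G * (ω i * ω j) * (κ * E) :=
        mul_le_mul_of_nonneg_right hMM (by positivity)
    _ = G * κ * (ω i * ω j * E) := by ring
    _ ≤ G * κ * (ω i ^ 2 + ω j ^ 2) := mul_le_mul_of_nonneg_left h3 (by positivity)
    _ = _ := by ring

theorem cross_sum_le {ι : Type*} [Fintype ι] [DecidableEq ι] {E κ G : ℝ} {ω M r : ι → ℝ}
    (hE : 0 < E) (hκ : 0 < κ)
    (hω : ∀ i, 0 < ω i) (hs : Sep E ω) (hr : ∀ i, r i = κ * ω i ^ 2)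
    (hMM : ∀ i j, M i * M j ≤ G * (ω i * ω j)) (hG : 0 ≤ G) :
    ∑ i, ∑ j, (if i = j then 0 else M i * M j / (r i + r j))
      ≤ (Fintype.card ι : ℝ) ^ 2 * (G / (κ * E)) := by
  have h1 : ∀ i j, (if i = j then 0 else M i * M j / (r i + r j)) ≤ G / (κ * E) := by
    intro i j
    split_ifs with h
    · positivity
    · exact cross_le hE hκ hω hs hr h (hMM i j) hG
  calc ∑ i, ∑ j, (if i = j then 0 else M i * M j / (r i + r j))
      ≤ ∑ _i : ι, ∑ _j : ι, G / (κ * E) :=
        Finset.sum_le_sum fun i _ => Finset.sum_le_sum fun j _ => h1 i j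
    _ = _ := by
        rw [Finset.sum_const, Finset.sum_const, Finset.card_univ]
        simp
        ring

theorem quad_le {ι : Type*} [Fintype ι] {E κ G : ℝ} {ω M r : ι → ℝ} (hE : 0 < E) (hκ : 0 < κ)
    (hω : ∀ i, 0 < ω i) (hs : Sep E ω) (hr : ∀ i, r i = κ * ω i ^ 2)
    (hMM : ∀ i j, M i * M j ≤ G * (ω i * ω j)) (hG : 0 ≤ G) :
    ∑ i, ∑ j, M i * M j / (r i + r j)
      ≤ ∑ i, M i ^ 2 / (2 * r i) + (Fintype.card ι : ℝ) ^ 2 * (G / (κ * E)) := by
  classical
  have h1 := cross_sum_le hE hκ hω hs hr hMM hG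
  have h2 : ∑ i, ∑ j, M i * M j / (r i + r j)
      = ∑ i, ∑ j, (if i = j then M i ^ 2 / (2 * r i) else 0)
        + ∑ i, ∑ j, (if i = j then 0 else M i * M j / (r i + r j)) := by
    rw [← Finset.sum_add_distrib]
    apply Finset.sum_congr rfl
    intro i _
    rw [← Finset.sum_add_distrib]
    apply Finset.sum_congr rfl
    intro j _
    split_ifs with h
    · rw [← h, add_zero]
      congr 1 <;> ring
    · rw [zero_add]
  rw [h2]
  have h3 : ∑ i, ∑ j, (if i = j then M i ^ 2 / (2 * r i) else 0) = ∑ i, M i ^ 2 / (2 * r i) := by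
    apply Finset.sum_congr rfl
    intro i _
    rw [Finset.sum_ite_eq]
    simp
  rw [h3]
  linarith

/-! ### The profile `x exp (-x²)` -/

/-- The profile. -/
noncomputable def phi (x : ℝ) : ℝ := x * Real.exp (-x ^ 2)

theorem phi_nonneg {x : ℝ} (hx : 0 ≤ x) : 0 ≤ phi x := by
  unfold phi
  positivity

theorem phi_le_self {x : ℝ} (hx : 0 ≤ x) : phi x ≤ x := by
  unfold phi
  have : Real.exp (-x ^ 2) ≤ 1 := by
    apply Real.exp_le_one_iff.2
    nlinarith
  nlinarith

theorem phi_le_inv {x : ℝ} (hx : 0 < x) : phi x ≤ 1 / x := by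
  unfold phi
  rw [le_div_iff₀ hx]
  have h1 := Real.add_one_le_exp (x ^ 2)
  have h2 := Real.exp_pos (-x ^ 2)
  have h3 : Real.exp (-x ^ 2) * Real.exp (x ^ 2) = 1 := by
    rw [← Real.exp_add]
    simp
  have h4 : x ^ 2 ≤ Real.exp (x ^ 2) := by linarith
  calc x * Real.exp (-x ^ 2) * x = Real.exp (-x ^ 2) * x ^ 2 := by ring
    _ ≤ Real.exp (-x ^ 2) * Real.exp (x ^ 2) := mul_le_mul_of_nonneg_left h4 h2.le
    _ = 1 := h3

theorem phi_le_one {x : ℝ} (hx : 0 ≤ x) : phi x ≤ 1 := by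
  rcases le_or_gt x 1 with h | h
  · exact (phi_le_self hx).trans h
  · refine (phi_le_inv (by linarith)).trans ?_
    rw [div_le_one (by linarith)]
    exact h.le

theorem phi_cross {E x y : ℝ} (hE : 0 < E) (hx : 0 ≤ x) (hy : 0 ≤ y) (h : E * x ≤ y) :
    phi x * phi y ≤ 1 / E := by
  rcases hy.eq_or_lt with h0 | hy'
  · rw [← h0] at h ⊢
    have : x = 0 := by nlinarith
    rw [this]
    unfold phi
    simp
    exact hE.le
  · calc phi x * phi y ≤ x * (1 / y) :=
          mul_le_mul (phi_le_self hx) (phi_le_inv hy') (phi_nonneg hy) hx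
      _ ≤ 1 / E := by
          rw [mul_one_div, div_le_div_iff₀ hy' hE]
          linarith

theorem sum_phi_le {ι : Type*} [Fintype ι] {E : ℝ} {ω : ι → ℝ} (hω : ∀ i, 0 ≤ ω i)
    (hs : Sep E ω) (hE : 0 < E) (hEN : (Fintype.card ι : ℝ) ^ 2 ≤ E) {s : ℝ} (h0 : 0 ≤ s) :
    ∑ i, phi (ω i * s) ≤ 2 := by
  classical
  set y := ∑ i, phi (ω i * s) with hy
  have hx : ∀ i, 0 ≤ ω i * s := fun i => mul_nonneg (hω i) h0
  have hy0 : 0 ≤ y := Finset.sum_nonneg fun i _ => phi_nonneg (hx i)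
  have h1 : y ^ 2 = ∑ i, ∑ j, phi (ω i * s) * phi (ω j * s) := by
    rw [hy, _root_.sq, Finset.sum_mul_sum]
  have h2 : ∀ i j, phi (ω i * s) * phi (ω j * s) ≤ (if i = j then phi (ω i * s) else 0) + 1 / E := by
    intro i j
    split_ifs with h
    · rw [← h]
      have h3 := phi_le_one (hx i)
      have h4 := phi_nonneg (hx i)
      have h5 : 0 < 1 / E := by positivity
      nlinarith
    · rw [zero_add]
      rcases hs i j h with h3 | h3
      · apply phi_cross hE (hx i) (hx j)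
        calc E * (ω i * s) = (E * ω i) * s := by ring
          _ ≤ ω j * s := mul_le_mul_of_nonneg_right h3 h0
      · rw [mul_comm]
        apply phi_cross hE (hx j) (hx i)
        calc E * (ω j * s) = (E * ω j) * s := by ring
          _ ≤ ω i * s := mul_le_mul_of_nonneg_right h3 h0
  have h3 : y ^ 2 ≤ y + 1 := by
    rw [h1]
    calc ∑ i, ∑ j, phi (ω i * s) * phi (ω j * s)
        ≤ ∑ i, ∑ j, ((if i = j then phi (ω i * s) else 0) + 1 / E) :=
          Finset.sum_le_sum fun i _ => Finset.sum_le_sum fun j _ => h2 i j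
      _ = y + (Fintype.card ι : ℝ) ^ 2 * (1 / E) := by
          simp_rw [Finset.sum_add_distrib, Finset.sum_ite_eq, Finset.mem_univ, if_true]
          rw [Finset.sum_const, Finset.sum_const, Finset.card_univ]
          simp
          ring
      _ ≤ y + 1 := by
          have : (Fintype.card ι : ℝ) ^ 2 * (1 / E) ≤ 1 := by
            rw [mul_one_div, div_le_one hE]
            exact hEN
          linarith
  nlinarith

theorem exp_le_inv {x : ℝ} (hx : 0 < x) : Real.exp (-x) ≤ 1 / x := by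
  rw [Real.exp_neg, ← one_div]
  apply one_div_le_one_div_of_le hx
  have := Real.add_one_le_exp x
  linarith

end Pool.Agent.Run7.h407.GD
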