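import Pool.Agent.Run7.h407.GD.Basis
import Pool.Agent.Run7.h407.GD.Real

/-!
A family of units at separated scales.
-/

set_option autoImplicit false
set_option linter.unusedSectionVars false

open Set Filter Topology MeasureTheory
open scoped ContDiff

namespace Pool.Agent.Run7.h407.GD

open H459R3.NS
open Pool.Agent.Run7.h782.GD hiding sq
open Pool.Agent.Run7.h782.GD renaming sq → ksq

variable {ν : ℝ} {ι : Type} [Fintype ι] [DecidableEq ι] (u : ι → Un ν)

/-- The approximate solution. -/
noncomputable def vv (t : ℝ) : Cf := ∑ i, (u i).U t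

/-- Its derivative. -/
noncomputable def dvv (t : ℝ) : Cf := ∑ i, (u i).dU t

/-- The residual. -/
noncomputable def FF (t : ℝ) : Cf := dvv u t + La ν (vv u t) + nl (vv u t) (vv u t)

/-- The waves at the initial time. -/
noncomputable def ww : Cf := ∑ i, (u i).W0

/-- The frequencies of the family. -/
noncomputable def Fr : Finset K3 := Finset.univ.biUnion fun i => (u i).fr

/-- All frequencies which occur. -/
noncomputable def BB : Finset K3 := (Fr u ∪ Finset.image₂ (fun a b => a + b) (Fr u) (Fr u)).erase 0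

theorem not_fr {k : K3} (hk : k ∉ Fr u) (i : ι) : k ∉ (u i).fr := fun h =>
  hk (Finset.mem_biUnion.2 ⟨i, Finset.mem_univ i, h⟩)

theorem vv_fr {t : ℝ} {k : K3} (hk : k ∉ Fr u) : vv u t k = 0 := by
  unfold vv
  rw [Finset.sum_apply]
  exact Finset.sum_eq_zero fun i _ => (u i).U_fr (not_fr u hk i)

theorem dvv_fr {t : ℝ} {k : K3} (hk : k ∉ Fr u) : dvv u t k = 0 := by
  unfold dvv
  rw [Finset.sum_apply]
  exact Finset.sum_eq_zero fun i _ => (u i).dU_fr (not_fr u hk i)

theorem ww_fr {k : K3} (hk : k ∉ Fr u) : ww u k = 0 := by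
  unfold ww
  rw [Finset.sum_apply]
  exact Finset.sum_eq_zero fun i _ => (u i).W0_fr (not_fr u hk i)

theorem zero_not_Fr : (0 : K3) ∉ Fr u := by
  unfold Fr
  rw [Finset.mem_biUnion]
  rintro ⟨i, _, h⟩
  exact (u i).zero_fr h

theorem Fr_sub {k : K3} (hk : k ∉ BB u) : k ∉ Fr u := by
  intro h
  apply hk
  unfold BB
  rw [Finset.mem_erase]
  refine ⟨?_, Finset.mem_union_left _ h⟩
  intro h0
  rw [h0] at h
  exact zero_not_Fr u h

theorem vv_FS (t : ℝ) : FS (vv u t) := FS.sum fun i _ => (u i).FS_U t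

theorem FF_BB {t : ℝ} {k : K3} (hk : k ∉ BB u) : FF u t k = 0 := by
  have h1 := Fr_sub u hk
  unfold FF
  rw [Pi.add_apply, Pi.add_apply, dvv_fr u h1]
  have h2 : La ν (vv u t) k = 0 := by
    unfold La
    rw [vv_fr u h1, smul_zero]
  have h3 : nl (vv u t) (vv u t) k = 0 := by
    rw [nl_eq]
    by_cases h0 : k = 0
    · have : cv (vv u t) (vv u t) k = 0 := by
        unfold cv
        rw [h0]
        simp [kd_zero_left]
      rw [this, prj_zero, smul_zero]
    · have : cv (vv u t) (vv u t) k = 0 := by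
        unfold cv
        have : ∀ p, kd k (vv u t p) • vv u t (k - p) = 0 := by
          intro p
          by_cases hp : p ∈ Fr u
          · by_cases hq : k - p ∈ Fr u
            · exfalso
              apply hk
              unfold BB
              rw [Finset.mem_erase]
              refine ⟨h0, Finset.mem_union_right _ ?_⟩
              rw [Finset.mem_image₂]
              exact ⟨p, hp, k - p, hq, by abel⟩
            · rw [vv_fr u hq, smul_zero]
          · rw [vv_fr u hp, kd_zero, zero_smul]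
        simp_rw [this]
        simp
      rw [this, prj_zero, smul_zero]
  rw [h2, h3]
  simp

theorem nl_vv (t : ℝ) : nl (vv u t) (vv u t) = ∑ i, ∑ j, nl ((u i).U t) ((u j).U t) := by
  unfold vv
  rw [nl_sum_left fun i _ => (u i).FS_U t]
  apply Finset.sum_congr rfl
  intro i _
  exact nl_sum_right ((u i).FS_U t) _

theorem FF_eq (t : ℝ) : FF u t = ∑ i, (u i).RU t
    + ∑ i, ∑ j, (if i = j then 0 else nl ((u i).U t) ((u j).U t)) := by
  unfold FF
  rw [nl_vv]
  unfold dvv vv Un.RU
  rw [La_sum, ← Finset.sum_add_distrib, ← Finset.sum_add_distrib, ← Finset.sum_add_distrib]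
  apply Finset.sum_congr rfl
  intro i _
  have h1 : ∑ j, nl ((u i).U t) ((u j).U t)
      = nl ((u i).U t) ((u i).U t) + ∑ j, (if i = j then 0 else nl ((u i).U t) ((u j).U t)) := by
    have h2 : nl ((u i).U t) ((u i).U t)
        = ∑ j, (if i = j then nl ((u i).U t) ((u j).U t) else 0) := by
      rw [Finset.sum_ite_eq]
      simp
    rw [h2, ← Finset.sum_add_distrib]
    apply Finset.sum_congr rfl
    intro j _
    split_ifs <;> simp
  rw [h1]
  abel

/-- The size of a unit. -/
noncomputable def MM (i : ι) : ℝ := (u i).Sz + (u i).lo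

theorem MM_nonneg (i : ι) : 0 ≤ MM u i := add_nonneg (u i).Sz_nonneg (u i).lo_nonneg

/-- The bound of the residual. -/
noncomputable def gg (t : ℝ) : ℝ := ∑ i, (u i).Rz * Real.exp (-((u i).la * t))
  + ∑ p : ι × ι, (if p.1 = p.2 then 0 else 40 * (MM u p.1 * MM u p.2))
    * Real.exp (-(((u p.1).la + (u p.2).la) * t))

theorem gg_cont : Continuous (gg u) := by
  unfold gg
  fun_prop

theorem FF_le (B : Finset K3) {t : ℝ} (ht : 0 ≤ t) : ∑ k ∈ B, ‖FF u t k‖ / len k ≤ gg u t := by
  have h0 : ∑ k ∈ B, ‖FF u t k‖ / len k = X B (FF u t) := rfl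
  rw [h0, FF_eq]
  refine (X_add_le B _ _).trans ?_
  unfold gg
  apply add_le_add
  · refine (X_sum_le B _ _).trans ?_
    exact Finset.sum_le_sum fun i _ => (u i).X_R B ht
  · refine (X_sum_le B _ _).trans ?_
    rw [← Finset.univ_product_univ, Finset.sum_product]
    apply Finset.sum_le_sum
    intro i _
    refine (X_sum_le B _ _).trans ?_
    apply Finset.sum_le_sum
    intro j _
    simp only
    split_ifs with h
    · rw [X_zero, zero_mul]
    · refine (X_nl_le B ((u i).FS_U t) ((u j).FS_U t)).trans ?_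
      have h1 := (u i).Y_U ht
      have h2 := (u j).Y_U ht
      have h3 := Y_nonneg ((u i).U t)
      have h4 := Y_nonneg ((u j).U t)
      have h5 := MM_nonneg u i
      have h6 : Real.exp (-(((u i).la + (u j).la) * t))
          = Real.exp (-((u i).la * t)) * Real.exp (-((u j).la * t)) := by
        rw [← Real.exp_add]
        congr 1
        ring
      rw [h6]
      calc 40 * Y ((u i).U t) * Y ((u j).U t) = 40 * (Y ((u i).U t) * Y ((u j).U t)) := by ring
        _ ≤ 40 * ((MM u i * Real.exp (-((u i).la * t))) * (MM u j * Real.exp (-((u j).la * t)))) := by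
            apply mul_le_mul_of_nonneg_left _ (by norm_num)
            exact mul_le_mul h1 h2 h4 (by positivity)
        _ = _ := by ring

theorem vv_deriv (t : ℝ) (k : K3) : HasDerivAt (fun s => vv u s k) (dvv u t k) t := by
  unfold vv dvv
  simp only [Finset.sum_apply]
  exact HasDerivAt.fun_sum fun i _ => (u i).U_deriv t k

theorem vv_cont (k : K3) : Continuous fun t => vv u t k := by
  unfold vv
  simp only [Finset.sum_apply]
  exact continuous_finsetSum _ fun i _ => (u i).U_cont k

theorem dvv_cont (k : K3) : Continuous fun t => dvv u t k := by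
  unfold dvv
  simp only [Finset.sum_apply]
  exact continuous_finsetSum _ fun i _ => (u i).dU_cont k

theorem FF_cont (k : K3) : Continuous fun t => FF u t k := by
  unfold FF
  simp only [Pi.add_apply]
  refine ((dvv_cont u k).add ?_).add (nl_cont (B := Fr u) (fun t k hk => vv_fr u hk)
    (vv_cont u) (vv_cont u) k)
  unfold La
  exact (vv_cont u k).const_smul (lam ν k : ℂ)

theorem herm_vv (t : ℝ) : Herm (vv u t) := herm_sum fun i _ => (u i).herm_U t

theorem dv_vv (t : ℝ) : Dv (vv u t) := dv_sum fun i _ => (u i).dv_U t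

theorem herm_La {a : Cf} (ha : Herm a) : Herm (La ν a) := by
  rw [herm_iff] at *
  intro k
  unfold La
  rw [ha, cj_smul, lam_neg, Complex.conj_ofReal]

theorem dv_La {a : Cf} (ha : Dv a) : Dv (La ν a) := by
  intro k
  unfold La
  rw [kd_smul, ha, mul_zero]

theorem appr (u : ι → Un ν) : Appr ν (BB u) (vv u) (FF u) where
  zero := by
    unfold BB
    simp
  suppv := fun t k hk => vv_fr u (Fr_sub u hk)
  suppF := fun t k hk => FF_BB u hk
  contF := fun k => (FF_cont u k).continuousOn
  hermv := fun t _ => herm_vv u t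
  hermF := fun t _ => herm_add (herm_add (herm_sum fun i _ => (u i).herm_dU t)
    (herm_La (herm_vv u t))) (herm_nl (vv_FS u t) (herm_vv u t) (herm_vv u t))
  divv := fun t _ => dv_vv u t
  divF := fun t _ => dv_add (dv_add (dv_sum fun i _ => (u i).dv_dU t)
    (dv_La (dv_vv u t))) (dv_nl _ _)
  der := fun t _ k => by
    have h := (vv_deriv u t k).hasDerivWithinAt (s := Ici 0)
    have e : -(lam ν k : ℂ) • vv u t k - nl (vv u t) (vv u t) k + FF u t k = dvv u t k := by
      unfold FF La
      simp only [Pi.add_apply, neg_smul]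
      abel
    rw [e]
    exact h

theorem vv_sum_le (B : Finset K3) {t : ℝ} (ht : 0 ≤ t) :
    ∑ k ∈ B, ‖vv u t k‖ ≤ ∑ i, MM u i * Real.exp (-((u i).la * t)) := by
  refine (sum_le_Y (vv_FS u t) B).trans ?_
  unfold vv
  refine (Y_sum_le fun i _ => (u i).FS_U t).trans ?_
  exact Finset.sum_le_sum fun i _ => (u i).Y_U ht

theorem ww_heat (B : Finset K3) {t : ℝ} (ht : 0 ≤ t) :
    ∑ k ∈ B, Real.exp (-(4 * Real.pi ^ 2 * ksq k * t)) * ‖ww u k‖
      ≤ ∑ i, (u i).Sz * Real.exp (-(4 * Real.pi ^ 2 * (u i).om ^ 2 * t)) := by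
  have h1 : ∑ k ∈ B, Real.exp (-(4 * Real.pi ^ 2 * ksq k * t)) * ‖ww u k‖
      ≤ ∑ k ∈ B, ∑ i, Real.exp (-(4 * Real.pi ^ 2 * ksq k * t)) * ‖(u i).W0 k‖ := by
    apply Finset.sum_le_sum
    intro k _
    rw [← Finset.mul_sum]
    apply mul_le_mul_of_nonneg_left _ (Real.exp_pos _).le
    unfold ww
    rw [Finset.sum_apply]
    exact norm_sum_le _ _
  refine h1.trans ?_
  rw [Finset.sum_comm]
  exact Finset.sum_le_sum fun i _ => (u i).heat_W0 B ht

theorem vv_zero : vv u 0 = ww u + ∑ i, pm (u i).k ((u i).c • vc (u i).a) := by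
  unfold vv ww
  rw [← Finset.sum_add_distrib]
  exact Finset.sum_congr rfl fun i _ => (u i).U_zero

end Pool.Agent.Run7.h407.GD
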