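import Pool.Agent.Run7.h407.GD.Bas

/-!
Hermitian and divergence free families, time-dependent families.
-/

set_option autoImplicit false

open Set Filter Topology
open scoped ContDiff

namespace Pool.Agent.Run7.h407.GD

open H459R3.NS
open Pool.Agent.Run7.h782.GD hiding sq
open Pool.Agent.Run7.h782.GD renaming sq → ksq

/-- Complex conjugation of vectors. -/
noncomputable def cj (v : C3) : C3 := fun i => (starRingEnd ℂ) (v i)

theorem cj_add (v w : C3) : cj (v + w) = cj v + cj w := by
  funext i
  simp [cj]

theorem cj_zero : cj 0 = 0 := by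
  funext i
  simp [cj]

theorem cj_smul (c : ℂ) (v : C3) : cj (c • v) = (starRingEnd ℂ) c • cj v := by
  funext i
  simp [cj]

theorem cj_cj (v : C3) : cj (cj v) = v := by
  funext i
  simp [cj]

theorem norm_cj (v : C3) : ‖cj v‖ = ‖v‖ := by
  unfold cj
  simp only [Pi.norm_def]
  congr 2
  funext i
  simp

theorem cj_sum {ι : Type*} (s : Finset ι) (f : ι → C3) : cj (∑ i ∈ s, f i) = ∑ i ∈ s, cj (f i) := by
  classical
  induction s using Finset.induction_on with
  | empty => rw [Finset.sum_empty, Finset.sum_empty, cj_zero]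
  | insert i s hi ih => rw [Finset.sum_insert hi, Finset.sum_insert hi, cj_add, ih]

theorem kd_cj (k : K3) (v : C3) : kd k (cj v) = (starRingEnd ℂ) (kd k v) := by
  unfold kd cj
  rw [map_sum]
  congr 1
  funext j
  simp

theorem prj_cj (k : K3) (v : C3) : prj k (cj v) = cj (prj k v) := by
  funext i
  simp only [prj, kd_cj, cj, map_sub, map_mul, map_div₀, Complex.conj_ofReal, map_intCast]

theorem prj_neg_left (k : K3) (v : C3) : prj (-k) v = prj k v := by
  funext i
  simp only [prj, kd_neg_left, sq_neg', Pi.neg_apply, Int.cast_neg]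
  ring

theorem prj_neg (k : K3) (v : C3) : prj k (-v) = -prj k v := by
  have h := prj_smul k (-1) v
  simpa using h

/-- Hermitian families, vector form. -/
theorem herm_iff (a : Cf) : Herm a ↔ ∀ k, a (-k) = cj (a k) :=
  ⟨fun h k => funext fun i => h k i, fun h k i => congrFun (h k) i⟩

theorem herm_add {a b : Cf} (ha : Herm a) (hb : Herm b) : Herm (a + b) := by
  rw [herm_iff] at *
  intro k
  rw [Pi.add_apply, Pi.add_apply, ha, hb, cj_add]

theorem herm_zero : Herm (0 : Cf) := by
  rw [herm_iff]
  intro k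
  simp [cj_zero]

theorem herm_sum {ι : Type*} {s : Finset ι} {a : ι → Cf} (h : ∀ i ∈ s, Herm (a i)) :
    Herm (∑ i ∈ s, a i) := by
  classical
  induction s using Finset.induction_on with
  | empty =>
    rw [Finset.sum_empty]
    exact herm_zero
  | insert i s hi ih =>
    rw [Finset.sum_insert hi]
    exact herm_add (h i (Finset.mem_insert_self i s))
      (ih fun j hj => h j (Finset.mem_insert_of_mem hj))

/-- A pair of conjugate modes. -/
noncomputable def pm (κ : K3) (α : C3) : Cf := sm κ α + sm (-κ) (cj α)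

theorem FS.pm (κ : K3) (α : C3) : FS (pm κ α) := (FS.sm _ _).add (FS.sm _ _)

theorem herm_pm (κ : K3) (α : C3) : Herm (pm κ α) := by
  rw [herm_iff]
  intro k
  unfold GD.pm sm
  simp only [Pi.add_apply, cj_add]
  have e1 : (-k = κ) ↔ (k = -κ) := ⟨fun h => by rw [← h, neg_neg], fun h => by rw [h, neg_neg]⟩
  have e2 : (-k = -κ) ↔ (k = κ) := neg_inj
  simp only [e1, e2]
  rw [add_comm]
  congr 1
  · split_ifs
    · rfl
    · exact cj_zero.symm
  · split_ifs
    · exact (cj_cj α).symm
    · exact cj_zero.symm

theorem dv_add {a b : Cf} (ha : Dv a) (hb : Dv b) : Dv (a + b) := by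
  intro k
  rw [Pi.add_apply, kd_add, ha, hb, add_zero]

theorem dv_zero : Dv (0 : Cf) := fun k => kd_zero k

theorem dv_sum {ι : Type*} {s : Finset ι} {a : ι → Cf} (h : ∀ i ∈ s, Dv (a i)) :
    Dv (∑ i ∈ s, a i) := by
  classical
  induction s using Finset.induction_on with
  | empty =>
    rw [Finset.sum_empty]
    exact dv_zero
  | insert i s hi ih =>
    rw [Finset.sum_insert hi]
    exact dv_add (h i (Finset.mem_insert_self i s))
      (ih fun j hj => h j (Finset.mem_insert_of_mem hj))

theorem dv_sm {κ : K3} {α : C3} (h : kd κ α = 0) : Dv (sm κ α) := by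
  intro k
  by_cases hk : k = κ
  · rw [hk, sm_self, h]
  · rw [sm_ne hk, kd_zero]

theorem dv_pm {κ : K3} {α : C3} (h : kd κ α = 0) : Dv (pm κ α) := by
  apply dv_add (dv_sm h) (dv_sm _)
  rw [kd_neg_left, kd_cj, h]
  simp

theorem dv_nl (a b : Cf) : Dv (nl a b) := by
  intro k
  rw [nl_eq, kd_smul, kd_prj, mul_zero]

theorem herm_nl {a b : Cf} (hf : FS a) (ha : Herm a) (hb : Herm b) : Herm (nl a b) := by
  rw [herm_iff] at *
  intro k
  rw [nl_eq, nl_eq]
  have hcv : cv a b (-k) = -cj (cv a b k) := by
    classical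
    set s := hf.toFinset with hs
    have hsym : ∀ p, p ∈ s → -p ∈ s := by
      intro p hp
      rw [hs, hf.mem_toFinset] at hp ⊢
      intro h0
      apply hp
      rw [ha] at h0
      have := congrArg cj h0
      rwa [cj_cj, cj_zero] at this
    rw [cv_fin hf b (-k) subset_rfl, cv_fin hf b k subset_rfl, cj_sum, ← Finset.sum_neg_distrib]
    apply Finset.sum_nbij' (i := fun p => -p) (j := fun p => -p)
    · exact fun p hp => hsym p hp
    · exact fun p hp => hsym p hp
    · intro p _
      simp
    · intro p _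
      simp
    · intro p _
      have e1 : a p = cj (a (-p)) := by rw [ha, cj_cj]
      have e2 : b (-k - p) = cj (b (k - -p)) := by
        rw [← hb]
        congr 1
        abel
      rw [e1, e2, ha, cj_cj, kd_cj, kd_neg_left, cj_smul]
      simp
  rw [hcv, prj_neg_left, prj_neg, prj_cj, cj_smul, smul_neg, ← neg_smul]
  congr 1
  rw [map_mul, map_mul, Complex.conj_I, Complex.conj_ofReal, map_ofNat]
  ring

/-! ### Time-dependent families -/

/-- The exponential factor. -/
noncomputable def ex (r t : ℝ) : ℂ := ((Real.exp (-(r * t)) : ℝ) : ℂ)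

theorem ex_deriv (r t : ℝ) : HasDerivAt (ex r) (-(r : ℂ) * ex r t) t := by
  have h1 : HasDerivAt (fun s : ℝ => Real.exp (-(r * s))) (Real.exp (-(r * t)) * (-(r * 1))) t :=
    (((hasDerivAt_id t).const_mul r).neg).exp
  have h2 := h1.ofReal_comp
  have e : -(r : ℂ) * ex r t = ((Real.exp (-(r * t)) * (-(r * 1)) : ℝ) : ℂ) := by
    unfold ex
    push_cast
    ring
  rw [e]
  exact h2

theorem ex_cont (r : ℝ) : Continuous (ex r) := by
  unfold ex
  fun_prop

theorem ex_zero (r : ℝ) : ex r 0 = 1 := by
  unfold ex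
  simp

theorem ex_conj (r t : ℝ) : (starRingEnd ℂ) (ex r t) = ex r t := by
  unfold ex
  exact Complex.conj_ofReal _

theorem norm_ex (r t : ℝ) : ‖ex r t‖ = Real.exp (-(r * t)) := by
  unfold ex
  rw [Complex.norm_real, Real.norm_eq_abs, abs_of_pos (Real.exp_pos _)]

theorem ex_mul (r s t : ℝ) : ex r t * ex s t = ex (r + s) t := by
  unfold ex
  rw [← Complex.ofReal_mul, ← Real.exp_add]
  congr 2
  ring

/-- Derivative of a single mode with a scalar time dependence. -/
theorem sm_deriv {φ : ℝ → ℂ} {φ' : ℂ} {t : ℝ} (h : HasDerivAt φ φ' t) (κ : K3) (α : C3) (k : K3) :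
    HasDerivAt (fun s => sm κ (φ s • α) k) (sm κ (φ' • α) k) t := by
  by_cases hk : k = κ
  · have e : (fun s => sm κ (φ s • α) k) = fun s => φ s • α := by
      funext s
      rw [hk, sm_self]
    rw [e, hk, sm_self]
    exact h.smul_const α
  · have e : (fun s => sm κ (φ s • α) k) = fun _ => (0 : C3) := by
      funext s
      rw [sm_ne hk]
    rw [e, sm_ne hk]
    exact hasDerivAt_const t 0

theorem sm_cont {φ : ℝ → ℂ} (h : Continuous φ) (κ : K3) (α : C3) (k : K3) :
    Continuous (fun s => sm κ (φ s • α) k) := by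
  by_cases hk : k = κ
  · have e : (fun s => sm κ (φ s • α) k) = fun s => φ s • α := by
      funext s
      rw [hk, sm_self]
    rw [e]
    exact h.smul continuous_const
  · have e : (fun s => sm κ (φ s • α) k) = fun _ => (0 : C3) := by
      funext s
      rw [sm_ne hk]
    rw [e]
    exact continuous_const

theorem kd_cont {E : Type*} [TopologicalSpace E] {f : E → C3} (hf : Continuous f) (k : K3) :
    Continuous (fun t => kd k (f t)) := by
  unfold kd
  apply continuous_finsetSum
  intro j _
  exact continuous_const.mul ((continuous_apply j).comp hf)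

theorem prj_cont {E : Type*} [TopologicalSpace E] {f : E → C3} (hf : Continuous f) (k : K3) :
    Continuous (fun t => prj k (f t)) := by
  unfold prj
  apply continuous_pi
  intro i
  exact ((continuous_apply i).comp hf).sub
    (continuous_const.mul ((kd_cont hf k).div_const _))

theorem nl_cont {v w : ℝ → Cf} {B : Finset K3} (hB : ∀ t, ∀ k ∉ B, v t k = 0)
    (hv : ∀ k, Continuous fun t => v t k) (hw : ∀ k, Continuous fun t => w t k) (k : K3) :
    Continuous fun t => nl (v t) (w t) k := by
  have e : (fun t => nl (v t) (w t) k)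
      = fun t => (2 * Real.pi * Complex.I : ℂ) • prj k (∑ p ∈ B, kd k (v t p) • w t (k - p)) := by
    funext t
    rw [nl_eq]
    congr 2
    unfold cv
    apply tsum_eq_sum
    intro p hp
    rw [hB t p hp, kd_zero, zero_smul]
  rw [e]
  have h1 : Continuous fun t => ∑ p ∈ B, kd k (v t p) • w t (k - p) := by
    apply continuous_finsetSum
    intro p _
    exact (kd_cont (hv p) k).smul (hw _)
  exact (prj_cont h1 k).const_smul (2 * Real.pi * Complex.I : ℂ)

end Pool.Agent.Run7.h407.GD
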