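import Pool.Agent.Run7.h407.GD.Herm

/-!
One unit of the approximate solution: a pair of plane waves whose interaction removes a low mode.
-/

set_option autoImplicit false

open Set Filter Topology
open scoped ContDiff

namespace Pool.Agent.Run7.h407.GD

open H459R3.NS
open Pool.Agent.Run7.h782.GD hiding sq
open Pool.Agent.Run7.h782.GD renaming sq → ksq

/-! ### Pairs of conjugate modes -/

/-- The amplitude produced by the interaction of two modes. -/
noncomputable def NN (k : K3) (α α' : C3) : C3 :=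
  (2 * Real.pi * Complex.I : ℂ) • prj k (kd k α • α')

theorem cj_NN (k : K3) (α α' : C3) : cj (NN k α α') = NN (-k) (cj α) (cj α') := by
  unfold NN
  rw [cj_smul, ← prj_cj, cj_smul, prj_neg_left, kd_neg_left, kd_cj, neg_smul, prj_neg, smul_neg,
    ← neg_smul]
  congr 1
  rw [map_mul, map_mul, Complex.conj_I, Complex.conj_ofReal, map_ofNat]
  ring

theorem nl_pm (κ κ' : K3) (α α' : C3) : nl (pm κ α) (pm κ' α')
    = pm (κ + κ') (NN (κ + κ') α α') + pm (κ - κ') (NN (κ - κ') α (cj α')) := by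
  unfold pm
  rw [nl_add_left (FS.sm _ _) (FS.sm _ _), nl_add_right (FS.sm _ _), nl_add_right (FS.sm _ _),
    nl_sm, nl_sm, nl_sm, nl_sm, cj_NN, cj_NN, cj_cj]
  have e1 : κ + -κ' = κ - κ' := by abel
  have e2 : -κ + κ' = -(κ - κ') := by abel
  have e3 : -κ + -κ' = -(κ + κ') := by abel
  rw [e1, e2, e3]
  unfold NN
  abel

theorem pm_zero (κ : K3) : pm κ 0 = 0 := by
  funext k
  unfold pm sm
  simp [cj_zero]

theorem nl_pm_zero {κ κ' : K3} {α : C3} (α' : C3) (h1 : kd κ α = 0) (h2 : kd κ' α = 0) :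
    nl (pm κ α) (pm κ' α') = 0 := by
  rw [nl_pm]
  have e1 : kd (κ + κ') α = 0 := by rw [kd_add_left, h1, h2, add_zero]
  have e2 : kd (κ - κ') α = 0 := by
    have : κ - κ' = κ + -κ' := by abel
    rw [this, kd_add_left, kd_neg_left, h1, h2]
    simp
  have n1 : NN (κ + κ') α α' = 0 := by
    unfold NN
    rw [e1, zero_smul, prj_zero, smul_zero]
  have n2 : NN (κ - κ') α (cj α') = 0 := by
    unfold NN
    rw [e2, zero_smul, prj_zero, smul_zero]
  rw [n1, n2, pm_zero, pm_zero, add_zero]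

theorem sm_add (κ : K3) (α β : C3) : sm κ (α + β) = sm κ α + sm κ β := by
  funext k
  rw [Pi.add_apply]
  by_cases h : k = κ
  · rw [h, sm_self, sm_self, sm_self]
  · rw [sm_ne h, sm_ne h, sm_ne h, add_zero]

theorem pm_add (κ : K3) (α β : C3) : pm κ (α + β) = pm κ α + pm κ β := by
  unfold pm
  rw [cj_add, sm_add, sm_add]
  abel

theorem Y_pm_le (κ : K3) (α : C3) : Y (pm κ α) ≤ 2 * ‖α‖ := by
  unfold pm
  refine (Y_add_le (FS.sm _ _) (FS.sm _ _)).trans ?_
  rw [Y_sm, Y_sm, norm_cj]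
  linarith

theorem X_pm_le (B : Finset K3) (κ : K3) (α : C3) : X B (pm κ α) ≤ 2 * ‖α‖ / len κ := by
  unfold pm
  refine (X_add_le B _ _).trans ?_
  have h1 := X_sm_le B κ α
  have h2 := X_sm_le B (-κ) (cj α)
  rw [norm_cj, len_neg] at h2
  have e : 2 * ‖α‖ / len κ = ‖α‖ / len κ + ‖α‖ / len κ := by ring
  rw [e]
  exact add_le_add h1 h2

/-- Weighted sums over a pair of modes. -/
theorem wsum_pm_le (B : Finset K3) (φ : ℝ → ℝ) (hφ : ∀ x, 0 ≤ φ x) (κ : K3) (α : C3) :
    ∑ k ∈ B, φ (ksq k) * ‖pm κ α k‖ ≤ φ (ksq κ) * (2 * ‖α‖) := by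
  have h1 : ∀ (κ : K3) (α : C3), ∑ k ∈ B, φ (ksq k) * ‖sm κ α k‖ ≤ φ (ksq κ) * ‖α‖ := by
    intro κ α
    by_cases h : κ ∈ B
    · rw [Finset.sum_eq_single_of_mem κ h]
      · rw [sm_self]
      · intro k _ hk
        rw [sm_ne hk, norm_zero, mul_zero]
    · rw [Finset.sum_eq_zero]
      · exact mul_nonneg (hφ _) (norm_nonneg _)
      · intro k hk
        have : k ≠ κ := fun e => h (e ▸ hk)
        rw [sm_ne this, norm_zero, mul_zero]
  have h2 : ∑ k ∈ B, φ (ksq k) * ‖pm κ α k‖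
      ≤ ∑ k ∈ B, φ (ksq k) * ‖sm κ α k‖ + ∑ k ∈ B, φ (ksq k) * ‖sm (-κ) (cj α) k‖ := by
    rw [← Finset.sum_add_distrib]
    apply Finset.sum_le_sum
    intro k _
    rw [← mul_add]
    exact mul_le_mul_of_nonneg_left (norm_add_le _ _) (hφ _)
  have h3 := h1 κ α
  have h4 := h1 (-κ) (cj α)
  rw [norm_cj, sq_neg'] at h4
  linarith

theorem pm_ne {κ k : K3} (h1 : k ≠ κ) (h2 : k ≠ -κ) (α : C3) : pm κ α k = 0 := by
  unfold pm
  rw [Pi.add_apply, sm_ne h1, sm_ne h2, add_zero]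

/-- The Stokes operator. -/
noncomputable def La (ν : ℝ) (a : Cf) : Cf := fun k => (lam ν k : ℂ) • a k

theorem La_sm (ν : ℝ) (κ : K3) (α : C3) : La ν (sm κ α) = sm κ ((lam ν κ : ℂ) • α) := by
  funext k
  unfold La
  by_cases h : k = κ
  · rw [h, sm_self, sm_self]
  · rw [sm_ne h, sm_ne h, smul_zero]

theorem La_pm (ν : ℝ) (κ : K3) (α : C3) : La ν (pm κ α) = pm κ ((lam ν κ : ℂ) • α) := by
  have e : La ν (pm κ α) = La ν (sm κ α) + La ν (sm (-κ) (cj α)) := by
    funext k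
    unfold La pm
    rw [Pi.add_apply, Pi.add_apply, smul_add]
  rw [e, La_sm, La_sm, lam_neg]
  unfold pm
  rw [cj_smul, Complex.conj_ofReal]

theorem La_add (ν : ℝ) (a b : Cf) : La ν (a + b) = La ν a + La ν b := by
  funext k
  unfold La
  rw [Pi.add_apply, Pi.add_apply, smul_add]

theorem La_sum (ν : ℝ) {ι : Type*} (s : Finset ι) (a : ι → Cf) :
    La ν (∑ i ∈ s, a i) = ∑ i ∈ s, La ν (a i) := by
  funext k
  unfold La
  rw [Finset.sum_apply, Finset.sum_apply, Finset.smul_sum]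

/-- Derivative of a pair of modes. -/
theorem pm_deriv {φ : ℝ → ℂ} {φ' : ℂ} {t : ℝ} (h : HasDerivAt φ φ' t)
    (κ : K3) (α : C3) (k : K3) :
    HasDerivAt (fun s => pm κ (φ s • α) k) (pm κ (φ' • α) k) t := by
  have h2 : HasDerivAt (fun s => (starRingEnd ℂ) (φ s)) ((starRingEnd ℂ) φ') t := by
    have := h.star
    exact this
  have h3 := (sm_deriv h κ α k).add (sm_deriv h2 (-κ) (cj α) k)
  unfold pm
  simp only [cj_smul, Pi.add_apply]
  exact h3

theorem pm_cont {φ : ℝ → ℂ} (h : Continuous φ) (κ : K3) (α : C3) (k : K3) :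
    Continuous (fun s => pm κ (φ s • α) k) := by
  have h2 : Continuous (fun s => (starRingEnd ℂ) (φ s)) := Complex.continuous_conj.comp h
  have h3 := (sm_cont h κ α k).add (sm_cont h2 (-κ) (cj α) k)
  unfold pm
  simp only [cj_smul, Pi.add_apply]
  exact h3

/-! ### Integer vectors -/

/-- The scalar product of integer vectors. -/
def dz (a b : K3) : ℤ := ∑ j, a j * b j

theorem dz_comm (a b : K3) : dz a b = dz b a := by
  unfold dz
  congr 1
  funext j
  ring

theorem dz_add (a b c : K3) : dz (a + b) c = dz a c + dz b c := by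
  unfold dz
  rw [← Finset.sum_add_distrib]
  congr 1
  funext j
  simp only [Pi.add_apply]
  ring

/-- An integer vector as a complex vector. -/
noncomputable def vc (a : K3) : C3 := fun i => (a i : ℂ)

theorem kd_vc (k a : K3) : kd k (vc a) = (dz k a : ℂ) := by
  unfold kd vc dz
  push_cast
  rfl

theorem cj_vc (a : K3) : cj (vc a) = vc a := by
  funext i
  unfold cj vc
  simp

theorem dz_self (k : K3) : ((dz k k : ℤ) : ℝ) = ksq k := by
  unfold dz ksq
  push_cast
  congr 1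
  funext j
  ring

theorem dz_self_c (k : K3) : ((dz k k : ℤ) : ℂ) = ((ksq k : ℝ) : ℂ) := by
  rw [← dz_self]
  push_cast
  rfl

theorem abs_coord_le_len (a : K3) (i : Fin 3) : |(a i : ℝ)| ≤ len a := by
  apply Real.abs_le_sqrt
  unfold ksq
  exact Finset.single_le_sum (f := fun j => (a j : ℝ) ^ 2) (fun j _ => sq_nonneg _)
    (Finset.mem_univ i)

theorem norm_int_c (n : ℤ) : ‖(n : ℂ)‖ = |(n : ℝ)| := by
  have : (n : ℂ) = ((n : ℝ) : ℂ) := by push_cast; rfl
  rw [this, Complex.norm_real, Real.norm_eq_abs]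

theorem norm_vc_le (a : K3) : ‖vc a‖ ≤ len a := by
  rw [pi_norm_le_iff_of_nonneg (len_nonneg a)]
  intro i
  unfold vc
  rw [norm_int_c]
  exact abs_coord_le_len a i

theorem ksq_add {m k : K3} (h : dz m k = 0) : ksq (m + k) = ksq m + ksq k := by
  have e : dz (m + k) (m + k) = dz m m + dz k k := by
    have h2 : dz k m = 0 := by rw [dz_comm, h]
    rw [dz_add, dz_comm m (m + k), dz_comm k (m + k), dz_add, dz_add, h, h2]
    ring
  rw [← dz_self, e]
  push_cast
  rw [dz_self, dz_self]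

/-- The data of a unit. -/
structure Un (ν : ℝ) where
  k : K3
  a : K3
  m : K3
  c : ℂ
  hν : 0 < ν
  ka : dz k a = 0
  hmk : dz m k = 0
  ma : dz m a = 0
  k0 : k ≠ 0
  a0 : a ≠ 0
  le : ksq k ≤ ksq m

namespace Un

variable {ν : ℝ} (u : Un ν)

theorem mpos : 0 < ksq u.m := (sq_pos u.k0).trans_le u.le

theorem m0 : u.m ≠ 0 := by
  intro h
  have := u.mpos
  rw [h] at this
  simp [ksq] at this

theorem mk0 : u.m + u.k ≠ 0 := by
  intro h
  have h1 := ksq_add u.hmk
  rw [h] at h1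
  have h2 := u.mpos
  have h3 := sq_pos u.k0
  simp [ksq] at h1
  simp only [ksq] at h2 h3
  linarith

/-- The rate of the low part. -/
noncomputable def D : ℝ := lam ν u.m + lam ν (u.m + u.k)

theorem D_eq : u.D = 4 * Real.pi ^ 2 * ν * (2 * ksq u.m + ksq u.k) := by
  unfold D lam
  rw [ksq_add u.hmk]
  ring

theorem D_pos : 0 < u.D := by
  rw [D_eq]
  have h1 := u.mpos
  have h2 := sq_nonneg' u.k
  have h3 := u.hν
  have h4 := Real.pi_pos
  positivity

/-- The amplitude of the first wave. -/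
noncomputable def P : ℝ := Real.sqrt (u.D * ‖u.c‖ / (2 * Real.pi * len u.k * len u.a))

/-- The amplitude of the second wave. -/
noncomputable def Q : ℂ := -Complex.I * ((u.D : ℂ) * u.c / (2 * Real.pi * ksq u.k * u.P : ℂ))

/-- The direction of the second wave. -/
noncomputable def b : C3 := vc u.k - ((ksq u.k / ksq u.m : ℝ) : ℂ) • vc u.m

theorem P_nonneg : 0 ≤ u.P := Real.sqrt_nonneg _

theorem P_sq : (u.P * len u.a) ^ 2 = u.D * (‖u.c‖ * len u.a / len u.k) / (2 * Real.pi) := by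
  have h1 := u.D_pos
  have h2 := len_pos u.k0
  have h3 := len_pos u.a0
  have h4 := Real.pi_pos
  rw [mul_pow]
  unfold P
  rw [Real.sq_sqrt (by positivity)]
  field_simp

theorem PQ : (2 * Real.pi * Complex.I : ℂ) * u.Q * u.P * ksq u.k = (u.D : ℂ) * u.c := by
  have h1 := u.D_pos
  have h2 := len_pos u.k0
  have h3 := len_pos u.a0
  have h4 := Real.pi_pos
  have h5 := sq_pos u.k0
  by_cases hc : u.c = 0
  · unfold Q
    rw [hc]
    simp
  · have hP : 0 < u.P := by
      unfold P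
      apply Real.sqrt_pos.2
      have : 0 < ‖u.c‖ := norm_pos_iff.2 hc
      positivity
    unfold Q
    have e1 : (u.P : ℂ) ≠ 0 := by exact_mod_cast hP.ne'
    have e2 : ((ksq u.k : ℝ) : ℂ) ≠ 0 := by exact_mod_cast h5.ne'
    have e3 : ((Real.pi : ℝ) : ℂ) ≠ 0 := by exact_mod_cast h4.ne'
    field_simp
    rw [Complex.I_sq]
    ring

theorem Q_norm : ‖u.Q‖ * len u.k ≤ u.P * len u.a := by
  have h1 := u.D_pos
  have h2 := len_pos u.k0
  have h3 := len_pos u.a0
  have h4 := Real.pi_pos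
  have h5 := sq_pos u.k0
  have hPn := u.P_nonneg
  rcases hPn.eq_or_lt with h0 | hP
  · have hQ : u.Q = 0 := by
      unfold Q
      rw [← h0]
      simp
    rw [hQ, norm_zero, zero_mul]
    positivity
  · have e : ‖u.Q‖ = u.D * ‖u.c‖ / (2 * Real.pi * ksq u.k * u.P) := by
      unfold Q
      rw [norm_mul, norm_neg, Complex.norm_I, one_mul, norm_div, norm_mul, norm_mul, norm_mul,
        norm_mul, Complex.norm_real, Complex.norm_real, Complex.norm_real, Complex.norm_real,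
        Real.norm_eq_abs, Real.norm_eq_abs, Real.norm_eq_abs, Real.norm_eq_abs,
        abs_of_pos h1, abs_of_pos h4, abs_of_pos h5, abs_of_pos hP]
      norm_num
    have hP2 : u.P ^ 2 = u.D * ‖u.c‖ / (2 * Real.pi * len u.k * len u.a) := by
      unfold P
      exact Real.sq_sqrt (by positivity)
    have e2 : u.D * ‖u.c‖ = u.P ^ 2 * (2 * Real.pi * len u.k * len u.a) := by
      rw [hP2]
      field_simp
    rw [e, e2, ← len_sq]
    apply le_of_eq
    field_simp

theorem kd_k_b : kd u.k u.b = (ksq u.k : ℂ) := by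
  unfold b
  have e : vc u.k - ((ksq u.k / ksq u.m : ℝ) : ℂ) • vc u.m
      = vc u.k + (-((ksq u.k / ksq u.m : ℝ) : ℂ)) • vc u.m := by
    rw [neg_smul, sub_eq_add_neg]
  rw [e, kd_add, kd_smul, kd_vc, kd_vc, dz_comm u.k u.m, u.hmk, dz_self_c]
  simp

theorem kd_m_b : kd u.m u.b = -(ksq u.k : ℂ) := by
  have h := u.mpos
  unfold b
  have e : vc u.k - ((ksq u.k / ksq u.m : ℝ) : ℂ) • vc u.m
      = vc u.k + (-((ksq u.k / ksq u.m : ℝ) : ℂ)) • vc u.m := by
    rw [neg_smul, sub_eq_add_neg]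
  have e2 : ((ksq u.m : ℝ) : ℂ) ≠ 0 := by exact_mod_cast h.ne'
  rw [e, kd_add, kd_smul, kd_vc, kd_vc, u.hmk, dz_self_c]
  push_cast
  field_simp
  ring

theorem norm_b_le : ‖u.b‖ ≤ 2 * len u.k := by
  have h1 := u.mpos
  have h2 := len_pos u.k0
  have h3 := len_pos u.m0
  have hle : len u.k ≤ len u.m := Real.sqrt_le_sqrt u.le
  unfold b
  refine (norm_sub_le _ _).trans ?_
  rw [norm_smul, Complex.norm_real, Real.norm_eq_abs, abs_of_nonneg (by
    have := sq_nonneg' u.k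
    positivity)]
  have h4 := norm_vc_le u.k
  have h5 := norm_vc_le u.m
  have h6 : ksq u.k / ksq u.m * ‖vc u.m‖ ≤ len u.k := by
    calc ksq u.k / ksq u.m * ‖vc u.m‖ ≤ ksq u.k / ksq u.m * len u.m := by
          apply mul_le_mul_of_nonneg_left h5
          have := sq_nonneg' u.k
          positivity
      _ = len u.k * (len u.k / len u.m) := by
          rw [← len_sq, ← len_sq]
          field_simp
      _ ≤ len u.k * 1 := by
          apply mul_le_mul_of_nonneg_left _ h2.le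
          rw [div_le_one h3]
          exact hle
      _ = len u.k := mul_one _
  linarith

/-- The first wave. -/
noncomputable def wA (t : ℝ) : Cf := pm u.m ((ex (lam ν u.m) t * u.P) • vc u.a)

/-- The second wave. -/
noncomputable def wB (t : ℝ) : Cf := pm (u.m + u.k) ((ex (lam ν (u.m + u.k)) t * u.Q) • u.b)

/-- The low part. -/
noncomputable def wL (t : ℝ) : Cf := pm u.k ((ex u.D t * u.c) • vc u.a)

theorem kd_a_zero_m : kd u.m (vc u.a) = 0 := by
  rw [kd_vc, u.ma]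
  simp

theorem kd_a_zero_k : kd u.k (vc u.a) = 0 := by
  rw [kd_vc, u.ka]
  simp

theorem kd_a_zero_mk : kd (u.m + u.k) (vc u.a) = 0 := by
  rw [kd_add_left, kd_a_zero_m, kd_a_zero_k, add_zero]

theorem kd_b_zero : kd (u.m + u.k) u.b = 0 := by
  rw [kd_add_left, kd_m_b, kd_k_b]
  ring

theorem nlAA (t s : ℝ) : nl (u.wA t) (u.wA s) = 0 := by
  apply nl_pm_zero <;> rw [kd_smul, kd_a_zero_m, mul_zero]

theorem nlAB (t s : ℝ) : nl (u.wA t) (u.wB s) = 0 := by
  apply nl_pm_zero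
  · rw [kd_smul, kd_a_zero_m, mul_zero]
  · rw [kd_smul, kd_a_zero_mk, mul_zero]

theorem nlBB (t s : ℝ) : nl (u.wB t) (u.wB s) = 0 := by
  apply nl_pm_zero <;> rw [kd_smul, kd_b_zero, mul_zero]

theorem nlBA (t : ℝ) : nl (u.wB t) (u.wA t)
    = pm (u.m + u.k + u.m) (-((ex u.D t * (u.D * u.c)) • vc u.a))
      + pm u.k ((ex u.D t * (u.D * u.c)) • vc u.a) := by
  unfold wB wA
  rw [nl_pm]
  have e1 : u.m + u.k - u.m = u.k := by abel
  rw [e1, cj_smul, cj_vc, map_mul, ex_conj, Complex.conj_ofReal]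
  have hex : ex (lam ν (u.m + u.k)) t * ex (lam ν u.m) t = ex u.D t := by
    rw [ex_mul]
    unfold D
    rw [add_comm]
  have hPQ := u.PQ
  congr 2
  · unfold NN
    have e2 : kd (u.m + u.k + u.m) u.b = -(ksq u.k : ℂ) := by
      rw [kd_add_left, kd_b_zero, kd_m_b, zero_add]
    have e3 : kd (u.m + u.k + u.m) (vc u.a) = 0 := by
      rw [kd_add_left, kd_a_zero_mk, kd_a_zero_m, add_zero]
    rw [kd_smul, e2, smul_smul, prj_smul, prj_of_kd e3, smul_smul, ← neg_smul]
    congr 1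
    rw [← hex]
    linear_combination (-(ex (lam ν (u.m + u.k)) t * ex (lam ν u.m) t)) * hPQ
  · unfold NN
    rw [kd_smul, kd_k_b, smul_smul, prj_smul, prj_of_kd u.kd_a_zero_k, smul_smul]
    congr 1
    rw [← hex]
    linear_combination (ex (lam ν (u.m + u.k)) t * ex (lam ν u.m) t) * hPQ

/-- The unit. -/
noncomputable def U (t : ℝ) : Cf := u.wA t + u.wB t + u.wL t

/-- The derivative of the unit. -/
noncomputable def dU (t : ℝ) : Cf :=
  pm u.m ((-(lam ν u.m : ℂ) * ex (lam ν u.m) t * u.P) • vc u.a)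
    + pm (u.m + u.k) ((-(lam ν (u.m + u.k) : ℂ) * ex (lam ν (u.m + u.k)) t * u.Q) • u.b)
    + pm u.k ((-(u.D : ℂ) * ex u.D t * u.c) • vc u.a)

theorem U_deriv (t : ℝ) (k : K3) : HasDerivAt (fun s => u.U s k) (u.dU t k) t := by
  have h1 := pm_deriv ((ex_deriv (lam ν u.m) t).mul_const (u.P : ℂ)) u.m (vc u.a) k
  have h2 := pm_deriv ((ex_deriv (lam ν (u.m + u.k)) t).mul_const u.Q) (u.m + u.k) u.b k
  have h3 := pm_deriv ((ex_deriv u.D t).mul_const u.c) u.k (vc u.a) k
  exact (h1.add h2).add h3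

theorem U_cont (k : K3) : Continuous fun t => u.U t k := by
  have h1 := pm_cont ((ex_cont (lam ν u.m)).mul (continuous_const (y := (u.P : ℂ)))) u.m (vc u.a) k
  have h2 := pm_cont ((ex_cont (lam ν (u.m + u.k))).mul (continuous_const (y := u.Q)))
    (u.m + u.k) u.b k
  have h3 := pm_cont ((ex_cont u.D).mul (continuous_const (y := u.c))) u.k (vc u.a) k
  exact (h1.add h2).add h3

theorem dU_cont (k : K3) : Continuous fun t => u.dU t k := by
  have h1 := pm_cont ((continuous_const (y := -(lam ν u.m : ℂ))).mul (ex_cont (lam ν u.m)) |>.mul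
    (continuous_const (y := (u.P : ℂ)))) u.m (vc u.a) k
  have h2 := pm_cont ((continuous_const (y := -(lam ν (u.m + u.k) : ℂ))).mul
    (ex_cont (lam ν (u.m + u.k))) |>.mul (continuous_const (y := u.Q))) (u.m + u.k) u.b k
  have h3 := pm_cont ((continuous_const (y := -(u.D : ℂ))).mul (ex_cont u.D) |>.mul
    (continuous_const (y := u.c))) u.k (vc u.a) k
  exact (h1.add h2).add h3

theorem FS_A (t : ℝ) : FS (u.wA t) := FS.pm _ _

theorem FS_B (t : ℝ) : FS (u.wB t) := FS.pm _ _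

theorem FS_L (t : ℝ) : FS (u.wL t) := FS.pm _ _

theorem FS_U (t : ℝ) : FS (u.U t) := ((u.FS_A t).add (u.FS_B t)).add (u.FS_L t)

/-- The residual of one unit. -/
noncomputable def RU (t : ℝ) : Cf := u.dU t + La ν (u.U t) + nl (u.U t) (u.U t)

theorem RU_eq (t : ℝ) : u.RU t
    = pm u.k (((lam ν u.k : ℂ) * ex u.D t * u.c) • vc u.a)
      + pm (u.m + u.k + u.m) (-((ex u.D t * (u.D * u.c)) • vc u.a))
      + (nl (u.wA t + u.wB t) (u.wL t) + nl (u.wL t) (u.wA t + u.wB t)
        + nl (u.wL t) (u.wL t)) := by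
  have h1 : nl (u.U t) (u.U t) = nl (u.wB t) (u.wA t)
      + (nl (u.wA t + u.wB t) (u.wL t) + nl (u.wL t) (u.wA t + u.wB t)
        + nl (u.wL t) (u.wL t)) := by
    unfold U
    rw [nl_add_left ((u.FS_A t).add (u.FS_B t)) (u.FS_L t),
      nl_add_right ((u.FS_A t).add (u.FS_B t)), nl_add_right (u.FS_L t),
      nl_add_left (u.FS_A t) (u.FS_B t) (u.wA t + u.wB t),
      nl_add_right (u.FS_A t), nl_add_right (u.FS_B t), nlAA, nlAB, nlBB]
    abel
  unfold RU
  rw [h1, nlBA]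
  have h2 : u.dU t + La ν (u.U t)
      = pm u.k (((lam ν u.k : ℂ) * ex u.D t * u.c) • vc u.a)
        - pm u.k ((ex u.D t * (u.D * u.c)) • vc u.a) := by
    unfold U dU wA wB wL
    rw [La_add, La_add, La_pm, La_pm, La_pm]
    have e1 : pm u.m ((-(lam ν u.m : ℂ) * ex (lam ν u.m) t * u.P) • vc u.a)
        + pm u.m ((lam ν u.m : ℂ) • (ex (lam ν u.m) t * u.P) • vc u.a) = 0 := by
      rw [← pm_add, smul_smul, ← add_smul]
      have : -(lam ν u.m : ℂ) * ex (lam ν u.m) t * u.P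
        + (lam ν u.m : ℂ) * (ex (lam ν u.m) t * u.P) = 0 := by ring
      rw [this, zero_smul, pm_zero]
    have e2 : pm (u.m + u.k) ((-(lam ν (u.m + u.k) : ℂ) * ex (lam ν (u.m + u.k)) t * u.Q) • u.b)
        + pm (u.m + u.k) ((lam ν (u.m + u.k) : ℂ) • (ex (lam ν (u.m + u.k)) t * u.Q) • u.b)
        = 0 := by
      rw [← pm_add, smul_smul, ← add_smul]
      have : -(lam ν (u.m + u.k) : ℂ) * ex (lam ν (u.m + u.k)) t * u.Q
        + (lam ν (u.m + u.k) : ℂ) * (ex (lam ν (u.m + u.k)) t * u.Q) = 0 := by ring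
      rw [this, zero_smul, pm_zero]
    have e3 : pm u.k ((-(u.D : ℂ) * ex u.D t * u.c) • vc u.a)
        + pm u.k ((lam ν u.k : ℂ) • (ex u.D t * u.c) • vc u.a)
        = pm u.k (((lam ν u.k : ℂ) * ex u.D t * u.c) • vc u.a)
        - pm u.k ((ex u.D t * (u.D * u.c)) • vc u.a) := by
      rw [eq_sub_iff_add_eq, ← pm_add, ← pm_add, smul_smul, ← add_smul, ← add_smul]
      congr 2
      ring
    rw [← e3]
    have hab : ∀ x1 x2 x3 y1 y2 y3 : Cf, x1 + y1 = 0 → x2 + y2 = 0 →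
        x1 + x2 + x3 + (y1 + y2 + y3) = x3 + y3 := by
      intro x1 x2 x3 y1 y2 y3 h1 h2
      have : x1 + x2 + x3 + (y1 + y2 + y3) = (x1 + y1) + (x2 + y2) + (x3 + y3) := by abel
      rw [this, h1, h2]
      abel
    exact hab _ _ _ _ _ _ e1 e2
  rw [h2]
  abel

end Un

end Pool.Agent.Run7.h407.GD
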