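import Pool.Agent.Run7.h407.GD.Unit

/-!
Bounds for one unit.
-/

set_option autoImplicit false

open Set Filter Topology
open scoped ContDiff

namespace Pool.Agent.Run7.h407.GD

open H459R3.NS
open Pool.Agent.Run7.h782.GD hiding sq
open Pool.Agent.Run7.h782.GD renaming sq → ksq

theorem pi_sq_lt : Real.pi ^ 2 < 10 := by
  have h1 := Real.pi_lt_d2
  have h2 := Real.pi_pos
  nlinarith

theorem pi_sq_gt : 9 < Real.pi ^ 2 := by
  have h1 := Real.pi_gt_three
  nlinarith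

namespace Un

variable {ν : ℝ} (u : Un ν)

/-- The length of the high frequency. -/
noncomputable def om : ℝ := len u.m

/-- The decay rate of the unit. -/
noncomputable def la : ℝ := 4 * Real.pi ^ 2 * ν * u.om ^ 2

/-- The size of the waves. -/
noncomputable def Sz : ℝ := 6 * (u.P * len u.a)

/-- The size of the low part. -/
noncomputable def lo : ℝ := 2 * (‖u.c‖ * len u.a)

/-- The size in the norm with one negative derivative. -/
noncomputable def ga : ℝ := ‖u.c‖ * len u.a / len u.k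

theorem om_sq : u.om ^ 2 = ksq u.m := len_sq _

theorem om_ge : len u.k ≤ u.om := Real.sqrt_le_sqrt u.le

theorem om_one : 1 ≤ u.om := one_le_len u.m0

theorem om_pos : 0 < u.om := len_pos u.m0

theorem la_eq : u.la = lam ν u.m := by
  unfold la lam
  rw [om_sq]

theorem la_pos : 0 < u.la := by
  have h1 := u.om_pos
  have h3 := u.hν
  have h4 := Real.pi_pos
  unfold la
  positivity

theorem Sz_nonneg : 0 ≤ u.Sz := by
  have h1 := u.P_nonneg
  have h2 := len_nonneg u.a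
  unfold Sz
  positivity

theorem lo_nonneg : 0 ≤ u.lo := by
  have h2 := len_nonneg u.a
  unfold lo
  positivity

theorem ga_nonneg : 0 ≤ u.ga := by
  have h2 := len_nonneg u.a
  have h3 := len_nonneg u.k
  unfold ga
  positivity

theorem D_le : u.D ≤ 12 * Real.pi ^ 2 * ν * u.om ^ 2 := by
  rw [D_eq, om_sq]
  have h1 := u.le
  have h3 := u.hν
  have h5 : 0 < 4 * Real.pi ^ 2 * ν := by
    have h4 := Real.pi_pos
    positivity
  nlinarith

theorem la_le_D : u.la ≤ u.D := by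
  unfold D
  rw [la_eq]
  have : 0 ≤ lam ν (u.m + u.k) := by
    have h1 := sq_nonneg' (u.m + u.k)
    have h3 := u.hν.le
    unfold lam
    positivity
  linarith

theorem la_le_B : u.la ≤ lam ν (u.m + u.k) := by
  rw [la_eq]
  unfold lam
  rw [ksq_add u.hmk]
  have h1 := sq_nonneg' u.k
  have h3 := u.hν
  have h5 : 0 < 4 * Real.pi ^ 2 * ν := by
    have h4 := Real.pi_pos
    positivity
  nlinarith

theorem Sz_sq : u.Sz ^ 2 ≤ 720 * ν * u.ga * u.om ^ 2 := by
  have h1 := u.P_sq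
  have h2 := u.D_le
  have h3 := u.ga_nonneg
  have h4 := Real.pi_pos
  have h5 := Real.pi_lt_d2
  have h6 := u.hν
  unfold Sz
  rw [mul_pow, h1]
  have e : u.D * (‖u.c‖ * len u.a / len u.k) / (2 * Real.pi) = u.D * u.ga / (2 * Real.pi) := rfl
  rw [e]
  have h7 : u.D * u.ga ≤ 12 * Real.pi ^ 2 * ν * u.om ^ 2 * u.ga :=
    mul_le_mul_of_nonneg_right h2 h3
  have h8 : u.D * u.ga / (2 * Real.pi) ≤ 20 * ν * u.ga * u.om ^ 2 := by
    rw [div_le_iff₀ (by positivity)]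
    refine h7.trans ?_
    have h9 : 0 ≤ ν * u.om ^ 2 * u.ga := by positivity
    have h10 : 12 * Real.pi ^ 2 ≤ 40 * Real.pi := by nlinarith
    calc 12 * Real.pi ^ 2 * ν * u.om ^ 2 * u.ga = 12 * Real.pi ^ 2 * (ν * u.om ^ 2 * u.ga) := by ring
      _ ≤ 40 * Real.pi * (ν * u.om ^ 2 * u.ga) := mul_le_mul_of_nonneg_right h10 h9
      _ = _ := by ring
  nlinarith

theorem exp_mono {r s t : ℝ} (h : r ≤ s) (ht : 0 ≤ t) : Real.exp (-(s * t)) ≤ Real.exp (-(r * t)) := by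
  apply Real.exp_le_exp.2
  nlinarith

theorem Y_A (t : ℝ) : Y (u.wA t) ≤ 2 * (Real.exp (-(u.la * t)) * (u.P * len u.a)) := by
  unfold wA
  refine (Y_pm_le _ _).trans ?_
  rw [norm_smul, norm_mul, norm_ex, Complex.norm_real, Real.norm_eq_abs, abs_of_nonneg u.P_nonneg,
    ← la_eq, mul_assoc (Real.exp _)]
  have h1 := norm_vc_le u.a
  have h2 := u.P_nonneg
  apply mul_le_mul_of_nonneg_left _ (by norm_num)
  apply mul_le_mul_of_nonneg_left _ (Real.exp_pos _).le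
  exact mul_le_mul_of_nonneg_left h1 h2

theorem Qb_le : ‖u.Q‖ * ‖u.b‖ ≤ 2 * (u.P * len u.a) := by
  have h1 := u.norm_b_le
  have h2 := u.Q_norm
  have h3 := norm_nonneg u.Q
  nlinarith

theorem Y_B {t : ℝ} (ht : 0 ≤ t) : Y (u.wB t) ≤ 4 * (Real.exp (-(u.la * t)) * (u.P * len u.a)) := by
  unfold wB
  refine (Y_pm_le _ _).trans ?_
  rw [norm_smul, norm_mul, norm_ex]
  have h1 := u.Qb_le
  have h2 : 0 ≤ u.P * len u.a := mul_nonneg u.P_nonneg (len_nonneg _)
  have h3 := exp_mono u.la_le_B ht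
  have h4 := Real.exp_pos (-(lam ν (u.m + u.k) * t))
  have h5 : 0 ≤ ‖u.Q‖ * ‖u.b‖ := by positivity
  calc 2 * (Real.exp (-(lam ν (u.m + u.k) * t)) * ‖u.Q‖ * ‖u.b‖)
      = 2 * (Real.exp (-(lam ν (u.m + u.k) * t)) * (‖u.Q‖ * ‖u.b‖)) := by ring
    _ ≤ 2 * (Real.exp (-(u.la * t)) * (2 * (u.P * len u.a))) := by
        apply mul_le_mul_of_nonneg_left _ (by norm_num)
        exact mul_le_mul h3 h1 h5 (Real.exp_pos _).le
    _ = _ := by ring

theorem Y_W {t : ℝ} (ht : 0 ≤ t) : Y (u.wA t + u.wB t) ≤ u.Sz * Real.exp (-(u.la * t)) := by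
  refine (Y_add_le (u.FS_A t) (u.FS_B t)).trans ?_
  have h1 := u.Y_A t
  have h2 := u.Y_B ht
  unfold Sz
  linarith

theorem Y_L {t : ℝ} (ht : 0 ≤ t) : Y (u.wL t) ≤ u.lo * Real.exp (-(u.la * t)) := by
  unfold wL
  refine (Y_pm_le _ _).trans ?_
  rw [norm_smul, norm_mul, norm_ex]
  have h1 := norm_vc_le u.a
  have h3 := exp_mono u.la_le_D ht
  have h5 : 0 ≤ ‖u.c‖ := norm_nonneg _
  have h6 := len_nonneg u.a
  unfold lo
  calc 2 * (Real.exp (-(u.D * t)) * ‖u.c‖ * ‖vc u.a‖)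
      = 2 * (Real.exp (-(u.D * t)) * (‖u.c‖ * ‖vc u.a‖)) := by ring
    _ ≤ 2 * (Real.exp (-(u.la * t)) * (‖u.c‖ * len u.a)) := by
        apply mul_le_mul_of_nonneg_left _ (by norm_num)
        exact mul_le_mul h3 (mul_le_mul_of_nonneg_left h1 h5) (by positivity) (Real.exp_pos _).le
    _ = _ := by ring

theorem Y_U {t : ℝ} (ht : 0 ≤ t) : Y (u.U t) ≤ (u.Sz + u.lo) * Real.exp (-(u.la * t)) := by
  unfold U
  refine (Y_add_le ((u.FS_A t).add (u.FS_B t)) (u.FS_L t)).trans ?_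
  have h1 := u.Y_W ht
  have h2 := u.Y_L ht
  linarith

theorem len_2mk : u.om ≤ len (u.m + u.k + u.m) := by
  apply Real.sqrt_le_sqrt
  have e : dz (u.m + u.k + u.m) (u.m + u.k + u.m) = 4 * dz u.m u.m + dz u.k u.k := by
    have h1 := u.hmk
    have h2 : dz u.k u.m = 0 := by rw [dz_comm, h1]
    rw [dz_add, dz_add, dz_comm u.m (u.m + u.k + u.m), dz_comm u.k (u.m + u.k + u.m), dz_add,
      dz_add, dz_add, dz_add, h1, h2]
    ring
  rw [← dz_self, ← dz_self, e]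
  push_cast
  rw [dz_self, dz_self]
  have h1 := u.mpos
  have h2 := sq_nonneg' u.k
  linarith

/-- The size of the residual of the unit. -/
noncomputable def Rz : ℝ := 160 * ν * u.lo * u.om + 80 * u.Sz * u.lo + 40 * u.lo ^ 2

theorem X_R (B : Finset K3) {t : ℝ} (ht : 0 ≤ t) :
    X B (u.RU t) ≤ u.Rz * Real.exp (-(u.la * t)) := by
  rw [RU_eq]
  have hν := u.hν
  have hom := u.om_pos
  have hk := len_pos u.k0
  have hlo := u.lo_nonneg
  have hSz := u.Sz_nonneg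
  have hE := Real.exp_pos (-(u.la * t))
  have hE1 : Real.exp (-(u.la * t)) ≤ 1 := by
    apply Real.exp_le_one_iff.2
    have := u.la_pos
    have : 0 ≤ u.la * t := by positivity
    linarith
  have hED := exp_mono u.la_le_D ht
  have hED0 := Real.exp_pos (-(u.D * t))
  have hva := norm_vc_le u.a
  have hc := norm_nonneg u.c
  have hla := len_nonneg u.a
  have hpi := Real.pi_pos
  have hpi2 := pi_sq_lt
  -- first term
  have t1 : X B (pm u.k (((lam ν u.k : ℂ) * ex u.D t * u.c) • vc u.a))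
      ≤ 40 * ν * u.lo * u.om * Real.exp (-(u.la * t)) := by
    refine (X_pm_le B _ _).trans ?_
    rw [div_le_iff₀ hk, norm_smul, norm_mul, norm_mul, norm_ex, Complex.norm_real, Real.norm_eq_abs,
      abs_of_nonneg (by unfold lam; have := sq_nonneg' u.k; positivity)]
    unfold lam
    rw [← len_sq]
    have h1 : ‖u.c‖ * ‖vc u.a‖ ≤ ‖u.c‖ * len u.a := mul_le_mul_of_nonneg_left hva hc
    have h2 : Real.exp (-(u.D * t)) * (‖u.c‖ * ‖vc u.a‖)
        ≤ Real.exp (-(u.la * t)) * (‖u.c‖ * len u.a) :=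
      mul_le_mul hED h1 (by positivity) hE.le
    have h3 : 4 * Real.pi ^ 2 ≤ 40 := by linarith
    have h4 : len u.k ≤ u.om := u.om_ge
    calc 2 * (4 * Real.pi ^ 2 * ν * len u.k ^ 2 * Real.exp (-(u.D * t)) * ‖u.c‖ * ‖vc u.a‖)
        = (4 * Real.pi ^ 2) * (ν * len u.k * (2 * (Real.exp (-(u.D * t)) * (‖u.c‖ * ‖vc u.a‖))))
          * len u.k := by ring
      _ ≤ 40 * (ν * u.om * (2 * (Real.exp (-(u.la * t)) * (‖u.c‖ * len u.a)))) * len u.k := by
          apply mul_le_mul_of_nonneg_right _ hk.le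
          apply mul_le_mul h3 _ (by positivity) (by norm_num)
          apply mul_le_mul _ (mul_le_mul_of_nonneg_left h2 (by norm_num)) (by positivity)
            (by positivity)
          exact mul_le_mul_of_nonneg_left h4 hν.le
      _ = 40 * ν * u.lo * u.om * Real.exp (-(u.la * t)) * len u.k := by
          unfold lo
          ring
  -- second term
  have t2 : X B (pm (u.m + u.k + u.m) (-((ex u.D t * (u.D * u.c)) • vc u.a)))
      ≤ 120 * ν * u.lo * u.om * Real.exp (-(u.la * t)) := by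
    refine (X_pm_le B _ _).trans ?_
    have hl := u.len_2mk
    have hl0 : 0 < len (u.m + u.k + u.m) := hom.trans_le hl
    rw [div_le_iff₀ hl0, norm_neg, norm_smul, norm_mul, norm_mul, norm_ex, Complex.norm_real,
      Real.norm_eq_abs, abs_of_pos u.D_pos]
    have h1 : ‖u.c‖ * ‖vc u.a‖ ≤ ‖u.c‖ * len u.a := mul_le_mul_of_nonneg_left hva hc
    have h2 : Real.exp (-(u.D * t)) * (‖u.c‖ * ‖vc u.a‖)
        ≤ Real.exp (-(u.la * t)) * (‖u.c‖ * len u.a) :=
      mul_le_mul hED h1 (by positivity) hE.le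
    have h3 : u.D ≤ 120 * ν * u.om * u.om := by
      refine u.D_le.trans ?_
      have : 0 ≤ ν * u.om ^ 2 := by positivity
      nlinarith
    have h4 : 120 * ν * u.om * u.om ≤ 120 * ν * u.om * len (u.m + u.k + u.m) :=
      mul_le_mul_of_nonneg_left hl (by positivity)
    calc 2 * (Real.exp (-(u.D * t)) * (u.D * ‖u.c‖) * ‖vc u.a‖)
        = u.D * (2 * (Real.exp (-(u.D * t)) * (‖u.c‖ * ‖vc u.a‖))) := by ring
      _ ≤ (120 * ν * u.om * len (u.m + u.k + u.m))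
          * (2 * (Real.exp (-(u.la * t)) * (‖u.c‖ * len u.a))) :=
          mul_le_mul (h3.trans h4) (mul_le_mul_of_nonneg_left h2 (by norm_num)) (by positivity)
            (by positivity)
      _ = 120 * ν * u.lo * u.om * Real.exp (-(u.la * t)) * len (u.m + u.k + u.m) := by
          unfold lo
          ring
  -- nonlinear terms
  have y1 := u.Y_W ht
  have y2 := u.Y_L ht
  have y10 := Y_nonneg (u.wA t + u.wB t)
  have y20 := Y_nonneg (u.wL t)
  have hWF : FS (u.wA t + u.wB t) := (u.FS_A t).add (u.FS_B t)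
  have hWL : Y (u.wA t + u.wB t) * Y (u.wL t) ≤ u.Sz * u.lo * Real.exp (-(u.la * t)) := by
    calc Y (u.wA t + u.wB t) * Y (u.wL t)
        ≤ (u.Sz * Real.exp (-(u.la * t))) * (u.lo * Real.exp (-(u.la * t))) :=
          mul_le_mul y1 y2 y20 (by positivity)
      _ ≤ (u.Sz * Real.exp (-(u.la * t))) * (u.lo * 1) := by
          apply mul_le_mul_of_nonneg_left _ (by positivity)
          exact mul_le_mul_of_nonneg_left hE1 hlo
      _ = _ := by ring
  have hLL : Y (u.wL t) * Y (u.wL t) ≤ u.lo ^ 2 * Real.exp (-(u.la * t)) := by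
    calc Y (u.wL t) * Y (u.wL t)
        ≤ (u.lo * Real.exp (-(u.la * t))) * (u.lo * Real.exp (-(u.la * t))) :=
          mul_le_mul y2 y2 y20 (by positivity)
      _ ≤ (u.lo * Real.exp (-(u.la * t))) * (u.lo * 1) := by
          apply mul_le_mul_of_nonneg_left _ (by positivity)
          exact mul_le_mul_of_nonneg_left hE1 hlo
      _ = _ := by ring
  have x1 := X_nl_le B hWF (u.FS_L t)
  have x2 := X_nl_le B (u.FS_L t) hWF
  have x3 := X_nl_le B (u.FS_L t) (u.FS_L t)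
  have s1 := X_add_le B (pm u.k (((lam ν u.k : ℂ) * ex u.D t * u.c) • vc u.a)
      + pm (u.m + u.k + u.m) (-((ex u.D t * (u.D * u.c)) • vc u.a)))
      (nl (u.wA t + u.wB t) (u.wL t) + nl (u.wL t) (u.wA t + u.wB t)
        + nl (u.wL t) (u.wL t))
  have s2 := X_add_le B (pm u.k (((lam ν u.k : ℂ) * ex u.D t * u.c) • vc u.a))
      (pm (u.m + u.k + u.m) (-((ex u.D t * (u.D * u.c)) • vc u.a)))
  have s3 := X_add_le B (nl (u.wA t + u.wB t) (u.wL t) + nl (u.wL t) (u.wA t + u.wB t))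
    (nl (u.wL t) (u.wL t))
  have s4 := X_add_le B (nl (u.wA t + u.wB t) (u.wL t)) (nl (u.wL t) (u.wA t + u.wB t))
  have e : u.Rz * Real.exp (-(u.la * t)) = 40 * ν * u.lo * u.om * Real.exp (-(u.la * t))
      + 120 * ν * u.lo * u.om * Real.exp (-(u.la * t))
      + 80 * (u.Sz * u.lo * Real.exp (-(u.la * t)))
      + 40 * (u.lo ^ 2 * Real.exp (-(u.la * t))) := by
    unfold Rz
    ring
  rw [e]
  have hcomm : 40 * Y (u.wL t) * Y (u.wA t + u.wB t)
      = 40 * (Y (u.wA t + u.wB t) * Y (u.wL t)) := by ring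
  rw [hcomm] at x2
  have hass : 40 * Y (u.wA t + u.wB t) * Y (u.wL t)
      = 40 * (Y (u.wA t + u.wB t) * Y (u.wL t)) := by ring
  rw [hass] at x1
  have hass2 : 40 * Y (u.wL t) * Y (u.wL t) = 40 * (Y (u.wL t) * Y (u.wL t)) := by ring
  rw [hass2] at x3
  linarith

/-- The waves at the initial time. -/
noncomputable def W0 : Cf := u.wA 0 + u.wB 0

theorem heat_W0 (B : Finset K3) {t : ℝ} (ht : 0 ≤ t) :
    ∑ k ∈ B, Real.exp (-(4 * Real.pi ^ 2 * ksq k * t)) * ‖u.W0 k‖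
      ≤ u.Sz * Real.exp (-(4 * Real.pi ^ 2 * u.om ^ 2 * t)) := by
  have h1 : ∑ k ∈ B, Real.exp (-(4 * Real.pi ^ 2 * ksq k * t)) * ‖u.W0 k‖
      ≤ ∑ k ∈ B, Real.exp (-(4 * Real.pi ^ 2 * ksq k * t)) * ‖u.wA 0 k‖
        + ∑ k ∈ B, Real.exp (-(4 * Real.pi ^ 2 * ksq k * t)) * ‖u.wB 0 k‖ := by
    rw [← Finset.sum_add_distrib]
    apply Finset.sum_le_sum
    intro k _
    rw [← mul_add]
    exact mul_le_mul_of_nonneg_left (norm_add_le _ _) (Real.exp_pos _).le
  have h2 := wsum_pm_le B (fun x => Real.exp (-(4 * Real.pi ^ 2 * x * t)))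
    (fun x => (Real.exp_pos _).le) u.m ((ex (lam ν u.m) 0 * u.P) • vc u.a)
  have h3 := wsum_pm_le B (fun x => Real.exp (-(4 * Real.pi ^ 2 * x * t)))
    (fun x => (Real.exp_pos _).le) (u.m + u.k) ((ex (lam ν (u.m + u.k)) 0 * u.Q) • u.b)
  have hP := u.P_nonneg
  have hla := len_nonneg u.a
  have h4 : ‖(ex (lam ν u.m) 0 * u.P) • vc u.a‖ ≤ u.P * len u.a := by
    rw [ex_zero, one_mul, norm_smul, Complex.norm_real, Real.norm_eq_abs, abs_of_nonneg hP]
    exact mul_le_mul_of_nonneg_left (norm_vc_le _) hP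
  have h5 : ‖(ex (lam ν (u.m + u.k)) 0 * u.Q) • u.b‖ ≤ 2 * (u.P * len u.a) := by
    rw [ex_zero, one_mul, norm_smul]
    exact u.Qb_le
  have h6 : Real.exp (-(4 * Real.pi ^ 2 * ksq (u.m + u.k) * t))
      ≤ Real.exp (-(4 * Real.pi ^ 2 * u.om ^ 2 * t)) := by
    apply Real.exp_le_exp.2
    rw [ksq_add u.hmk, om_sq]
    have h7 := sq_nonneg' u.k
    have : 0 ≤ 4 * Real.pi ^ 2 * ksq u.k * t := by positivity
    nlinarith
  have h7 : Real.exp (-(4 * Real.pi ^ 2 * ksq u.m * t))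
      = Real.exp (-(4 * Real.pi ^ 2 * u.om ^ 2 * t)) := by rw [om_sq]
  have hE := Real.exp_pos (-(4 * Real.pi ^ 2 * u.om ^ 2 * t))
  have h8 : Real.exp (-(4 * Real.pi ^ 2 * ksq u.m * t))
      * (2 * ‖(ex (lam ν u.m) 0 * u.P) • vc u.a‖)
      ≤ Real.exp (-(4 * Real.pi ^ 2 * u.om ^ 2 * t)) * (2 * (u.P * len u.a)) := by
    rw [h7]
    apply mul_le_mul_of_nonneg_left _ hE.le
    linarith
  have h9 : Real.exp (-(4 * Real.pi ^ 2 * ksq (u.m + u.k) * t))
      * (2 * ‖(ex (lam ν (u.m + u.k)) 0 * u.Q) • u.b‖)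
      ≤ Real.exp (-(4 * Real.pi ^ 2 * u.om ^ 2 * t)) * (4 * (u.P * len u.a)) :=
    mul_le_mul h6 (by linarith) (by positivity) hE.le
  have e1 : ∑ k ∈ B, Real.exp (-(4 * Real.pi ^ 2 * ksq k * t)) * ‖u.wA 0 k‖
      = ∑ k ∈ B, (fun x => Real.exp (-(4 * Real.pi ^ 2 * x * t))) (ksq k)
        * ‖pm u.m ((ex (lam ν u.m) 0 * u.P) • vc u.a) k‖ := rfl
  have e2 : ∑ k ∈ B, Real.exp (-(4 * Real.pi ^ 2 * ksq k * t)) * ‖u.wB 0 k‖
      = ∑ k ∈ B, (fun x => Real.exp (-(4 * Real.pi ^ 2 * x * t))) (ksq k)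
        * ‖pm (u.m + u.k) ((ex (lam ν (u.m + u.k)) 0 * u.Q) • u.b) k‖ := rfl
  unfold Sz
  rw [e1, e2] at h1
  simp only at h1 h2 h3
  linarith

theorem len_mk : u.om ≤ len (u.m + u.k) := by
  apply Real.sqrt_le_sqrt
  rw [ksq_add u.hmk]
  have := sq_nonneg' u.k
  linarith

theorem W0_low {k : K3} (hk : len k < u.om) : u.W0 k = 0 := by
  have h1 : k ≠ u.m := fun h => by rw [h] at hk; exact lt_irrefl _ hk
  have h2 : k ≠ -u.m := fun h => by rw [h, len_neg] at hk; exact lt_irrefl _ hk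
  have h3 : k ≠ u.m + u.k := fun h => by
    rw [h] at hk
    exact absurd u.len_mk (not_le.2 hk)
  have h4 : k ≠ -(u.m + u.k) := fun h => by
    rw [h, len_neg] at hk
    exact absurd u.len_mk (not_le.2 hk)
  unfold W0 wA wB
  rw [Pi.add_apply, pm_ne h1 h2, pm_ne h3 h4, add_zero]

theorem U_zero : u.U 0 = u.W0 + pm u.k (u.c • vc u.a) := by
  unfold U W0 wL
  rw [ex_zero, one_mul]

theorem herm_U (t : ℝ) : Herm (u.U t) :=
  herm_add (herm_add (herm_pm _ _) (herm_pm _ _)) (herm_pm _ _)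

theorem herm_dU (t : ℝ) : Herm (u.dU t) :=
  herm_add (herm_add (herm_pm _ _) (herm_pm _ _)) (herm_pm _ _)

theorem dv_U (t : ℝ) : Dv (u.U t) := by
  apply dv_add (dv_add (dv_pm _) (dv_pm _)) (dv_pm _)
  · rw [kd_smul, kd_a_zero_m, mul_zero]
  · rw [kd_smul, kd_b_zero, mul_zero]
  · rw [kd_smul, kd_a_zero_k, mul_zero]

theorem dv_dU (t : ℝ) : Dv (u.dU t) := by
  apply dv_add (dv_add (dv_pm _) (dv_pm _)) (dv_pm _)
  · rw [kd_smul, kd_a_zero_m, mul_zero]
  · rw [kd_smul, kd_b_zero, mul_zero]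
  · rw [kd_smul, kd_a_zero_k, mul_zero]

/-- The frequencies of the unit. -/
noncomputable def fr : Finset K3 := {u.m, -u.m, u.m + u.k, -(u.m + u.k), u.k, -u.k}

theorem pm_fr {κ k : K3} (h1 : κ ∈ u.fr) (h2 : -κ ∈ u.fr) (hk : k ∉ u.fr) (α : C3) :
    pm κ α k = 0 :=
  pm_ne (fun h => hk (by rw [h]; exact h1)) (fun h => hk (by rw [h]; exact h2)) α

theorem U_fr {t : ℝ} {k : K3} (hk : k ∉ u.fr) : u.U t k = 0 := by
  unfold U wA wB wL
  rw [Pi.add_apply, Pi.add_apply, u.pm_fr (by simp [fr]) (by simp [fr]) hk,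
    u.pm_fr (by simp [fr]) (by simp [fr]) hk, u.pm_fr (by simp [fr]) (by simp [fr]) hk]
  simp

theorem dU_fr {t : ℝ} {k : K3} (hk : k ∉ u.fr) : u.dU t k = 0 := by
  unfold dU
  rw [Pi.add_apply, Pi.add_apply, u.pm_fr (by simp [fr]) (by simp [fr]) hk,
    u.pm_fr (by simp [fr]) (by simp [fr]) hk, u.pm_fr (by simp [fr]) (by simp [fr]) hk]
  simp

theorem W0_fr {k : K3} (hk : k ∉ u.fr) : u.W0 k = 0 := by
  unfold W0 wA wB
  rw [Pi.add_apply, u.pm_fr (by simp [fr]) (by simp [fr]) hk,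
    u.pm_fr (by simp [fr]) (by simp [fr]) hk]
  simp

theorem zero_fr : (0 : K3) ∉ u.fr := by
  unfold fr
  simp only [Finset.mem_insert, Finset.mem_singleton, not_or]
  have h1 := u.m0
  have h2 := u.mk0
  have h3 := u.k0
  refine ⟨h1.symm, fun h => h1 ?_, h2.symm, fun h => h2 ?_, h3.symm, fun h => h3 ?_⟩
  · exact neg_eq_zero.1 h.symm
  · exact neg_eq_zero.1 h.symm
  · exact neg_eq_zero.1 h.symm

end Un

end Pool.Agent.Run7.h407.GD
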